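import Mathlib

set_option autoImplicit false
open Filter Topology Finset

namespace Pool.Agent.TH974.DR

/-- The convolution square. -/
noncomputable def conv (f : ℕ → ℝ) (k : ℕ) : ℝ :=
  ∑ ij ∈ HasAntidiagonal.antidiagonal k, f ij.1 * f ij.2

/-- One step of the recursion with `m = 2`. -/
noncomputable def step (f : ℕ → ℝ) (k : ℕ) : ℝ :=
  conv f (k + 1) + (if k = 0 then f 0 ^ 2 else 0)

/-- Generating function. -/
noncomputable def G (f : ℕ → ℝ) (s : ℝ) : ℝ := ∑' k, f k * s ^ k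

lemma conv_nonneg {f : ℕ → ℝ} (hf : ∀ k, 0 ≤ f k) (k : ℕ) : 0 ≤ conv f k :=
  Finset.sum_nonneg (fun _ _ => mul_nonneg (hf _) (hf _))

lemma step_nonneg {f : ℕ → ℝ} (hf : ∀ k, 0 ≤ f k) (k : ℕ) : 0 ≤ step f k := by
  unfold step
  have h1 := conv_nonneg hf (k+1)
  have h2 : (0:ℝ) ≤ (if k = 0 then f 0 ^ 2 else 0) := by
    split_ifs
    · positivity
    · exact le_rfl
  linarith

/-- Cauchy product of two nonnegative series. -/
lemma hasSum_cauchy {u v : ℕ → ℝ} (hu : ∀ k, 0 ≤ u k) (hv : ∀ k, 0 ≤ v k)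
    (su : Summable u) (sv : Summable v) :
    HasSum (fun k => ∑ ij ∈ HasAntidiagonal.antidiagonal k, u ij.1 * v ij.2)
      ((∑' k, u k) * ∑' k, v k) := by
  have hp : Summable (fun x : ℕ × ℕ => u x.1 * v x.2) := su.mul_of_nonneg sv hu hv
  have h1 := summable_sum_mul_antidiagonal_of_summable_mul hp
  have h2 := su.tsum_mul_tsum_eq_tsum_sum_antidiagonal sv hp
  rw [h2]
  exact h1.hasSum

lemma conv_mul_pow (f : ℕ → ℝ) (s : ℝ) (k : ℕ) :
    ∑ ij ∈ HasAntidiagonal.antidiagonal k, (f ij.1 * s ^ ij.1) * (f ij.2 * s ^ ij.2)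
      = conv f k * s ^ k := by
  unfold conv
  rw [Finset.sum_mul]
  refine Finset.sum_congr rfl (fun ij hij => ?_)
  rw [HasAntidiagonal.mem_antidiagonal] at hij
  rw [← hij, pow_add]
  ring

lemma hasSum_conv {f : ℕ → ℝ} (hf : ∀ k, 0 ≤ f k) {s : ℝ} (hs : 0 ≤ s)
    (h : Summable (fun k => f k * s ^ k)) :
    HasSum (fun k => conv f k * s ^ k) (G f s ^ 2) := by
  have h1 := hasSum_cauchy (u := fun k => f k * s ^ k) (v := fun k => f k * s ^ k)
    (fun k => mul_nonneg (hf k) (pow_nonneg hs k)) (fun k => mul_nonneg (hf k) (pow_nonneg hs k)) h h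
  simp only [conv_mul_pow] at h1
  rw [sq]
  exact h1

lemma conv_zero (f : ℕ → ℝ) : conv f 0 = f 0 ^ 2 := by
  simp [conv, sq]

lemma hasSum_conv_succ {f : ℕ → ℝ} (hf : ∀ k, 0 ≤ f k) {s : ℝ} (hs : 0 ≤ s)
    (h : Summable (fun k => f k * s ^ k)) :
    HasSum (fun k => conv f (k + 1) * s ^ (k + 1)) (G f s ^ 2 - f 0 ^ 2) := by
  have h1 := hasSum_conv hf hs h
  have h2 := (hasSum_nat_add_iff' 1).2 h1
  simpa [conv_zero] using h2

lemma hasSum_single0 (c : ℝ) (s : ℝ) :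
    HasSum (fun k : ℕ => (if k = 0 then c else 0) * s ^ k) c := by
  have h := hasSum_ite_eq (0:ℕ) c
  have e : (fun k : ℕ => (if k = 0 then c else 0) * s ^ k) = fun k : ℕ => if k = 0 then c else 0 := by
    funext k
    by_cases hk : k = 0
    · simp [hk]
    · simp [hk]
  rw [e]
  exact h

lemma hasSum_step {f : ℕ → ℝ} (hf : ∀ k, 0 ≤ f k) {s : ℝ} (hs : 0 < s)
    (h : Summable (fun k => f k * s ^ k)) :
    HasSum (fun k => step f k * s ^ k) ((G f s ^ 2 - f 0 ^ 2) / s + f 0 ^ 2) := by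
  have h1 := (hasSum_conv_succ hf hs.le h).div_const s
  have h2 := hasSum_single0 (f 0 ^ 2) s
  have h3 := h1.add h2
  have e : (fun k => step f k * s ^ k) = fun b => conv f (b + 1) * s ^ (b + 1) / s +
      (if b = 0 then f 0 ^ 2 else 0) * s ^ b := by
    funext k
    unfold step
    have hs' : s ≠ 0 := hs.ne'
    rw [pow_succ s k, add_mul, ← mul_assoc, mul_div_cancel_right₀ _ hs']
  rw [e]
  exact h3

/-- Critical laws for `m = 2`. -/
structure Good (f : ℕ → ℝ) : Prop where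
  nonneg : ∀ k, 0 ≤ f k
  sum1 : HasSum f 1
  s2 : Summable (fun k : ℕ => f k * 2 ^ k)
  s2' : Summable (fun k : ℕ => (k:ℝ) * f k * 2 ^ k)
  crit : ∑' k : ℕ, (k:ℝ) * f k * 2 ^ k = ∑' k : ℕ, f k * 2 ^ k

lemma G_one {f : ℕ → ℝ} (h : HasSum f 1) : G f 1 = 1 := by
  unfold G
  simpa using h.tsum_eq

lemma hasSum_moment {f : ℕ → ℝ} (h : Good f) :
    HasSum (fun k : ℕ => (k:ℝ) * step f k * 2 ^ k) ((G f 2 ^ 2 + f 0 ^ 2) / 2) := by
  have hu : ∀ k : ℕ, 0 ≤ (k:ℝ) * f k * 2 ^ k := fun k =>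
    mul_nonneg (mul_nonneg (Nat.cast_nonneg k) (h.nonneg k)) (by positivity)
  have hv : ∀ k : ℕ, 0 ≤ f k * 2 ^ k := fun k => mul_nonneg (h.nonneg k) (by positivity)
  have h1 := hasSum_cauchy hu hv h.s2' h.s2
  have h2 := hasSum_cauchy hv hu h.s2 h.s2'
  have h3 := h1.add h2
  have e : (fun b : ℕ => (∑ ij ∈ HasAntidiagonal.antidiagonal b,
        (ij.1:ℝ) * f ij.1 * 2 ^ ij.1 * (f ij.2 * 2 ^ ij.2)) +
      ∑ ij ∈ HasAntidiagonal.antidiagonal b, f ij.1 * 2 ^ ij.1 * ((ij.2:ℝ) * f ij.2 * 2 ^ ij.2))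
      = fun k : ℕ => (k:ℝ) * (conv f k * 2 ^ k) := by
    funext k
    rw [← conv_mul_pow, ← Finset.sum_add_distrib, Finset.mul_sum]
    refine Finset.sum_congr rfl (fun ij hij => ?_)
    rw [HasAntidiagonal.mem_antidiagonal] at hij
    rw [← hij]
    push_cast
    ring
  rw [e] at h3
  have h4 := (hasSum_nat_add_iff' 1).2 h3
  have h5 := ((h4.sub (hasSum_conv_succ h.nonneg (by norm_num : (0:ℝ) ≤ 2) h.s2)).div_const 2)
  have e2 : (fun k : ℕ => (k:ℝ) * step f k * 2 ^ k) = fun b : ℕ =>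
      (((b + 1 : ℕ):ℝ) * (conv f (b + 1) * 2 ^ (b + 1)) - conv f (b + 1) * 2 ^ (b + 1)) / 2 := by
    funext k
    unfold step
    by_cases hk : k = 0
    · simp [hk]
    · simp only [hk, if_false]
      push_cast
      ring
  rw [e2]
  have e3 : (((∑' (k : ℕ), (k:ℝ) * f k * 2 ^ k) * ∑' (k : ℕ), f k * 2 ^ k +
            (∑' (k : ℕ), f k * 2 ^ k) * ∑' (k : ℕ), (k:ℝ) * f k * 2 ^ k -
          ∑ i ∈ range 1, (i:ℝ) * (conv f i * 2 ^ i) -
        (G f 2 ^ 2 - f 0 ^ 2)) / 2) = (G f 2 ^ 2 + f 0 ^ 2) / 2 := by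
    rw [Finset.sum_range_one, h.crit]
    unfold G
    push_cast
    ring
  rw [e3] at h5
  exact h5

lemma hasSum_step_two {f : ℕ → ℝ} (h : Good f) :
    HasSum (fun k : ℕ => step f k * 2 ^ k) ((G f 2 ^ 2 + f 0 ^ 2) / 2) := by
  have := hasSum_step h.nonneg (by norm_num : (0:ℝ) < 2) h.s2
  convert this using 1
  ring

lemma Good.step {f : ℕ → ℝ} (h : Good f) : Good (step f) where
  nonneg := step_nonneg h.nonneg
  sum1 := by
    have h1 : Summable (fun k => f k * (1:ℝ) ^ k) := by simpa using h.sum1.summable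
    have := hasSum_step h.nonneg (by norm_num : (0:ℝ) < 1) h1
    rw [G_one h.sum1] at this
    simpa using this
  s2 := (hasSum_step_two h).summable
  s2' := (hasSum_moment h).summable
  crit := by rw [(hasSum_moment h).tsum_eq, (hasSum_step_two h).tsum_eq]

lemma G_step_two {f : ℕ → ℝ} (h : Good f) : G (DR.step f) 2 = (G f 2 ^ 2 + f 0 ^ 2) / 2 :=
  (hasSum_step_two h).tsum_eq

lemma one_le_G {f : ℕ → ℝ} (h : Good f) : 1 ≤ G f 2 := by
  rw [← h.sum1.tsum_eq]
  refine h.sum1.summable.tsum_le_tsum (fun k => ?_) h.s2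
  have h1 : (1:ℝ) ≤ 2 ^ k := one_le_pow₀ (by norm_num)
  nlinarith [h.nonneg k]

lemma f0_le_one {f : ℕ → ℝ} (h : Good f) : f 0 ≤ 1 := by
  have := h.sum1.summable.le_tsum 0 (fun k _ => h.nonneg k)
  rwa [h.sum1.tsum_eq] at this

lemma G_le_two {f : ℕ → ℝ} (h : Good f) : G f 2 ≤ 2 := by
  -- sum of (2 f k - (2^k f k) + (k-1) 2^k f k) is nonnegative termwise
  have h1 : HasSum (fun k : ℕ => 2 * f k + ((k:ℝ) * f k * 2 ^ k - f k * 2 ^ k) - f k * 2 ^ k)
      (2 * 1 + ((∑' k : ℕ, (k:ℝ) * f k * 2 ^ k) - ∑' k : ℕ, f k * 2 ^ k) - ∑' k : ℕ, f k * 2 ^ k) :=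
    ((h.sum1.mul_left 2).add (h.s2'.hasSum.sub h.s2.hasSum)).sub h.s2.hasSum
  have h2 : 0 ≤ 2 * 1 + ((∑' k : ℕ, (k:ℝ) * f k * 2 ^ k) - ∑' k : ℕ, f k * 2 ^ k)
      - ∑' k : ℕ, f k * 2 ^ k := by
    refine h1.nonneg (fun k => ?_)
    rcases k with _ | _ | k
    · norm_num
      linarith
    · norm_num
      nlinarith [h.nonneg 1]
    · have : (0:ℝ) ≤ f (k+1+1) * 2 ^ (k+1+1) := mul_nonneg (h.nonneg _) (by positivity)
      have h3 : (0:ℝ) ≤ (k:ℝ) * (f (k+1+1) * 2 ^ (k+1+1)) := mul_nonneg (Nat.cast_nonneg k) this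
      have h4 := h.nonneg (k+1+1)
      push_cast
      nlinarith
  rw [h.crit] at h2
  unfold G
  linarith

/-- The truncated moments. -/
noncomputable def Phi (f : ℕ → ℝ) (j : ℕ) : ℝ := ∑' k : ℕ, ((k - j : ℕ):ℝ) * f k * 2 ^ k

lemma summable_Phi {f : ℕ → ℝ} (h : Good f) (j : ℕ) :
    Summable (fun k : ℕ => ((k - j : ℕ):ℝ) * f k * 2 ^ k) := by
  refine Summable.of_nonneg_of_le (fun k => ?_) (fun k => ?_) h.s2'
  · exact mul_nonneg (mul_nonneg (Nat.cast_nonneg _) (h.nonneg k)) (by positivity)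
  · have h1 : ((k - j : ℕ):ℝ) ≤ k := by exact_mod_cast Nat.sub_le k j
    have h2 : (0:ℝ) ≤ f k * 2 ^ k := mul_nonneg (h.nonneg k) (by positivity)
    nlinarith

lemma Phi_step {f : ℕ → ℝ} (h : Good f) (j : ℕ) : G f 2 * Phi f (j+1) ≤ Phi (step f) j := by
  have hu : ∀ k : ℕ, 0 ≤ ((k - (j+1) : ℕ):ℝ) * f k * 2 ^ k := fun k =>
    mul_nonneg (mul_nonneg (Nat.cast_nonneg _) (h.nonneg k)) (by positivity)
  have hv : ∀ k : ℕ, 0 ≤ f k * 2 ^ k := fun k => mul_nonneg (h.nonneg k) (by positivity)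
  have h1 := hasSum_cauchy hu hv (summable_Phi h (j+1)) h.s2
  have h2 := hasSum_cauchy hv hu h.s2 (summable_Phi h (j+1))
  have h3 := h1.add h2
  have h4 := ((hasSum_nat_add_iff' 1).2 h3).div_const 2
  have e0 : (Phi f (j+1) * G f 2 + G f 2 * Phi f (j+1)) / 2 = G f 2 * Phi f (j+1) := by ring
  rw [← e0]
  have h5 : Summable (fun k : ℕ => ((k - j : ℕ):ℝ) * step f k * 2 ^ k) := summable_Phi h.step j
  refine hasSum_le ?_ (by simpa [Phi, G] using h4) h5.hasSum
  intro k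
  have e1 : ((k - j : ℕ):ℝ) * step f k * 2 ^ k = ((k - j : ℕ):ℝ) * (conv f (k+1) * 2 ^ (k+1)) / 2 := by
    unfold step
    by_cases hk : k = 0
    · simp [hk]
    · simp only [hk, if_false]
      ring
  rw [e1, ← conv_mul_pow, ← Finset.sum_add_distrib, Finset.mul_sum]
  refine div_le_div_of_nonneg_right (Finset.sum_le_sum (fun ij hij => ?_)) (by norm_num)
  rw [HasAntidiagonal.mem_antidiagonal] at hij
  have h6 : (ij.1 - (j+1)) + (ij.2 - (j+1)) ≤ k - j := by omega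
  have h7 : ((ij.1 - (j+1) : ℕ):ℝ) + ((ij.2 - (j+1) : ℕ):ℝ) ≤ ((k - j : ℕ):ℝ) := by exact_mod_cast h6
  have h8 : 0 ≤ f ij.1 * 2 ^ ij.1 * (f ij.2 * 2 ^ ij.2) := mul_nonneg (hv _) (hv _)
  nlinarith


/-- Iterates of the recursion. -/
noncomputable def it (f : ℕ → ℝ) : ℕ → ℕ → ℝ
  | 0 => f
  | n + 1 => step (it f n)

lemma good_it {f : ℕ → ℝ} (h : Good f) : ∀ n, Good (it f n)
  | 0 => h
  | n + 1 => (good_it h n).step

lemma prod_Phi {f : ℕ → ℝ} (h : Good f) :
    ∀ n j : ℕ, (∏ i ∈ range n, G (it f i) 2) * Phi f (j + n) ≤ Phi (it f n) j := by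
  intro n
  induction n with
  | zero => intro j; simp [it]
  | succ n ih =>
    intro j
    have h1 := ih (j + 1)
    have h2 := Phi_step (good_it h n) j
    have h3 : 0 ≤ G (it f n) 2 := le_trans zero_le_one (one_le_G (good_it h n))
    have e : j + 1 + n = j + (n + 1) := by ring
    rw [e] at h1
    rw [Finset.prod_range_succ]
    calc (∏ i ∈ range n, G (it f i) 2) * G (it f n) 2 * Phi f (j + (n + 1))
        = G (it f n) 2 * ((∏ i ∈ range n, G (it f i) 2) * Phi f (j + (n + 1))) := by ring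
      _ ≤ G (it f n) 2 * Phi (it f n) (j + 1) := mul_le_mul_of_nonneg_left h1 h3
      _ ≤ Phi (step (it f n)) j := h2

lemma prod_bound {f : ℕ → ℝ} (h : Good f) (n : ℕ) :
    (∏ i ∈ range n, G (it f i) 2) * Phi f n ≤ 2 := by
  have h1 := prod_Phi h n 0
  rw [zero_add] at h1
  have h2 : Phi (it f n) 0 = G (it f n) 2 := by
    unfold Phi G
    simp only [Nat.sub_zero]
    exact (good_it h n).crit
  rw [h2] at h1
  exact h1.trans (G_le_two (good_it h n))

lemma harm (N : ℕ) (C : ℝ) : ∃ n, N ≤ n ∧ C < ∑ j ∈ Ico N n, 1 / (j:ℝ) := by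
  have h := Real.tendsto_sum_range_one_div_nat_succ_atTop
  obtain ⟨n, hn⟩ := ((h.eventually_gt_atTop (C + ∑ j ∈ range N, 1 / (j:ℝ))).and
    (eventually_ge_atTop N)).exists
  refine ⟨n + 1, by omega, ?_⟩
  have h1 : ∑ j ∈ range (n+1), 1 / (j:ℝ) = ∑ i ∈ range n, 1 / ((i:ℝ) + 1) := by
    rw [Finset.sum_range_succ']
    simp
  have h2 : ∑ j ∈ range N, 1 / (j:ℝ) + ∑ j ∈ Ico N (n+1), 1 / (j:ℝ) = ∑ j ∈ range (n+1), 1 / (j:ℝ) :=
    Finset.sum_range_add_sum_Ico _ (by omega)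
  rw [h1] at h2
  linarith [hn.1]

/-- The discrete Riccati comparison. -/
lemma ode {e η : ℕ → ℝ} (he : ∀ n, 0 ≤ e n) (hrec : ∀ n, e (n+1) = e n + e n ^ 2 / 2 - η n)
    (hη : Tendsto (fun n : ℕ => (n:ℝ) ^ 2 * η n) atTop (𝓝 4)) :
    ∃ N : ℕ, 1 ≤ N ∧ ∀ n, N ≤ n → 3 / 2 ≤ (n:ℝ) * e n := by
  have h1 : ∀ᶠ n : ℕ in atTop, (7/2:ℝ) < (n:ℝ) ^ 2 * η n := hη.eventually_const_lt (by norm_num)
  obtain ⟨N0, hN0⟩ := eventually_atTop.1 h1
  refine ⟨max N0 3, by omega, ?_⟩
  by_contra hcon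
  push Not at hcon
  obtain ⟨M, hM, hMx⟩ := hcon
  have key : ∀ n, M ≤ n → (n:ℝ) * e n + (1/2) * ∑ j ∈ Ico M n, 1 / (j:ℝ) ≤ 3/2 := by
    intro n hn
    induction n, hn using Nat.le_induction with
    | base => simpa using hMx.le
    | succ n hn ih =>
      have hnN : N0 ≤ n := le_trans (le_trans (le_max_left _ _) hM) hn
      have hn3 : 3 ≤ n := le_trans (le_trans (le_max_right _ _) hM) hn
      have hn3' : (3:ℝ) ≤ n := by exact_mod_cast hn3
      have hnpos : (0:ℝ) < n := by linarith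
      have hsum : 0 ≤ ∑ j ∈ Ico M n, 1 / (j:ℝ) := Finset.sum_nonneg (fun j _ => by positivity)
      have hx0 : 0 ≤ (n:ℝ) * e n := mul_nonneg hnpos.le (he n)
      have hx1 : (n:ℝ) * e n ≤ 3/2 := by linarith
      have hη' := hN0 n hnN
      rw [Finset.sum_Ico_succ_top hn, hrec n]
      push_cast
      set x := (n:ℝ) * e n with hx
      have he' : e n = x / n := by rw [hx]; field_simp
      have hη2 : (7/2) / (n:ℝ) ≤ ((n:ℝ) + 1) * η n := by
        rw [div_le_iff₀ hnpos]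
        have : 0 < η n := by
          by_contra hc
          push Not at hc
          nlinarith [sq_nonneg (n:ℝ)]
        nlinarith
      have hstep : ((n:ℝ) + 1) * (e n + e n ^ 2 / 2) ≤ x + (1 / n) * 3 := by
        rw [he']
        have e1 : ((n:ℝ) + 1) * (x / n + (x / n) ^ 2 / 2)
            = x + (1 / n) * (x + x ^ 2 / 2 + x ^ 2 / (2 * n)) := by
          field_simp
          ring
        rw [e1]
        have h3 : x ^ 2 / (2 * n) ≤ 3/8 := by
          rw [div_le_iff₀ (by positivity)]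
          nlinarith
        have h4 : x + x ^ 2 / 2 + x ^ 2 / (2 * n) ≤ 3 := by nlinarith
        have h5 : 0 < 1 / (n:ℝ) := by positivity
        nlinarith
      have h6 : (7/2) / (n:ℝ) = (1/n) * (7/2) := by ring
      have h7 : ((n:ℝ) + 1) * (e n + e n ^ 2 / 2 - η n)
          = ((n:ℝ) + 1) * (e n + e n ^ 2 / 2) - ((n:ℝ) + 1) * η n := by ring
      rw [h7]
      rw [h6] at hη2
      linarith
  obtain ⟨n, hn, hn2⟩ := harm M 3
  have h8 := key n hn
  have h9 : 0 ≤ (n:ℝ) * e n := mul_nonneg (Nat.cast_nonneg n) (he n)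
  linarith

/-- Growth of the product contradicts a linear upper bound. -/
lemma growth {g : ℕ → ℝ} (hg : ∀ n, 1 ≤ g n) {N : ℕ} (hN : 1 ≤ N)
    (h : ∀ n, N ≤ n → 3 / 2 ≤ (n:ℝ) * (g n - 1)) (K : ℝ)
    (hK : ∀ n : ℕ, 1 ≤ n → ∏ i ∈ range n, g i ≤ K * n) : False := by
  set P : ℕ → ℝ := fun n => ∏ i ∈ range n, g i with hP
  have hPpos : ∀ n, 0 < P n := fun n => Finset.prod_pos (fun i _ => by linarith [hg i])
  have key : ∀ n, N ≤ n → P N / N * (1 + (1/4) * ∑ j ∈ Ico N n, 1 / (j:ℝ)) ≤ P n / n := by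
    intro n hn
    induction n, hn using Nat.le_induction with
    | base => simp
    | succ n hn ih =>
      have hn1 : (1:ℝ) ≤ n := by exact_mod_cast le_trans hN hn
      have hNpos : (0:ℝ) < N := by exact_mod_cast hN
      have hsum : 0 ≤ ∑ j ∈ Ico N n, 1 / (j:ℝ) := Finset.sum_nonneg (fun j _ => by positivity)
      have hr : 0 < P N / N := div_pos (hPpos N) hNpos
      have hr2 : P N / N ≤ P n / n := by
        refine le_trans ?_ ih
        nlinarith
      rw [Finset.sum_Ico_succ_top hn]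
      have hPs : P (n+1) = P n * g n := by simp [hP, Finset.prod_range_succ]
      have hgn := h n hn
      have hgn' : 1 + (3/2) / (n:ℝ) ≤ g n := by
        have : (3/2) / (n:ℝ) ≤ g n - 1 := by
          rw [div_le_iff₀ (by linarith)]
          linarith
        linarith
      have h1 : P n / n * (1 + (1/4) * (1 / n)) ≤ P (n+1) / ((n + 1 : ℕ) : ℝ) := by
        rw [hPs]
        push_cast
        rw [le_div_iff₀ (by linarith)]
        have h2 : P n / n * (1 + (1/4) * (1 / n)) * ((n:ℝ) + 1) ≤ P n * (1 + (3/2) / (n:ℝ)) := by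
          have h3 : (1 / (n:ℝ)) * (1 + (1/4) * (1 / n)) * ((n:ℝ) + 1) ≤ 1 + (3/2) / (n:ℝ) := by
            have hinv : 0 < 1 / (n:ℝ) := by positivity
            have hinv1 : 1 / (n:ℝ) ≤ 1 := by
              rw [div_le_one (by linarith)]
              exact hn1
            have e1 : (1 / (n:ℝ)) * (1 + (1/4) * (1 / n)) * ((n:ℝ) + 1)
                = 1 + (5/4) * (1/n) + (1/4) * (1/n) * (1/n) := by
              field_simp
              ring
            have e2 : (3/2) / (n:ℝ) = (3/2) * (1/n) := by ring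
            rw [e1, e2]
            nlinarith
          calc P n / n * (1 + (1/4) * (1 / n)) * ((n:ℝ) + 1)
              = P n * ((1 / (n:ℝ)) * (1 + (1/4) * (1 / n)) * ((n:ℝ) + 1)) := by ring
            _ ≤ P n * (1 + (3/2) / (n:ℝ)) := mul_le_mul_of_nonneg_left h3 (hPpos n).le
        refine h2.trans (mul_le_mul_of_nonneg_left hgn' (hPpos n).le)
      refine le_trans ?_ h1
      have h4 : P n / n * (1 + (1/4) * (1 / n)) = P n / n + (1/4) * (1/n) * (P n / n) := by ring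
      rw [h4]
      have h5 : (0:ℝ) < (1/4) * (1/n) := by positivity
      nlinarith
  obtain ⟨n, hn, hn2⟩ := harm N (4 * (K / (P N / N)))
  have hn1 : (1:ℝ) ≤ n := by exact_mod_cast le_trans hN hn
  have hNpos : (0:ℝ) < N := by exact_mod_cast hN
  have hr : 0 < P N / N := div_pos (hPpos N) hNpos
  have h1 := key n hn
  have h2 : P n / n ≤ K := by
    rw [div_le_iff₀ (by linarith)]
    exact hK n (le_trans hN hn)
  have h3 : P N / N * (1 + (1/4) * ∑ j ∈ Ico N n, 1 / (j:ℝ)) ≤ K := h1.trans h2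
  have h4 : K / (P N / N) * (P N / N) = K := div_mul_cancel₀ _ hr.ne'
  nlinarith

/-! ### The heavy-tailed critical law -/

/-- weights -/
noncomputable def w (k : ℕ) : ℝ := 1 / (k:ℝ) ^ 3

lemma w_nonneg (k : ℕ) : 0 ≤ w k := by unfold w; positivity

lemma w_zero : w 0 = 0 := by simp [w]

lemma summable_w : Summable w := by
  have := Real.summable_one_div_nat_pow.2 (by norm_num : 1 < 3)
  exact this

lemma kw (k : ℕ) : (k:ℝ) * w k = 1 / (k:ℝ) ^ 2 := by
  unfold w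
  by_cases hk : (k:ℝ) = 0
  · simp [hk]
  · field_simp

lemma summable_kw : Summable (fun k : ℕ => (k:ℝ) * w k) := by
  simp only [kw]
  exact Real.summable_one_div_nat_pow.2 (by norm_num : 1 < 2)

lemma summable_w2 : Summable (fun k : ℕ => w k / 2 ^ k) := by
  refine Summable.of_nonneg_of_le (fun k => ?_) (fun k => ?_) summable_w
  · exact div_nonneg (w_nonneg k) (by positivity)
  · exact div_le_self (w_nonneg k) (one_le_pow₀ (by norm_num))

noncomputable def S1 : ℝ := ∑' k : ℕ, (k:ℝ) * w k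
noncomputable def S0 : ℝ := ∑' k : ℕ, w k
noncomputable def S2 : ℝ := ∑' k : ℕ, w k / 2 ^ k

lemma S0_lt_S1 : S0 < S1 := by
  unfold S0 S1
  refine Summable.tsum_lt_tsum (i := 2) (fun k => ?_) ?_ summable_w summable_kw
  · rcases k with _ | k
    · simp [w_zero]
    · have := w_nonneg (k+1)
      have h2 : (0:ℝ) ≤ (k:ℝ) * w (k+1) := mul_nonneg (Nat.cast_nonneg k) this
      push_cast
      nlinarith
  · norm_num [w]

lemma S2_nonneg : 0 ≤ S2 := tsum_nonneg (fun k => div_nonneg (w_nonneg k) (by positivity))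

/-- normalising constant -/
noncomputable def c : ℝ := 1 / (S1 - S0 + S2)

lemma c_pos : 0 < c := by
  unfold c
  have := S0_lt_S1
  have := S2_nonneg
  apply one_div_pos.2
  linarith

lemma c_eq : c * (S1 - S0 + S2) = 1 := by
  unfold c
  have := S0_lt_S1
  have := S2_nonneg
  exact one_div_mul_cancel (by linarith)

/-- the law -/
noncomputable def f0 (k : ℕ) : ℝ := c * (w k / 2 ^ k) + (if k = 0 then 1 - c * S2 else 0)

lemma rest_pos : 0 < 1 - c * S2 := by
  have h1 := c_eq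
  have h2 := mul_pos c_pos (sub_pos.2 S0_lt_S1)
  nlinarith

lemma f0_nonneg (k : ℕ) : 0 ≤ f0 k := by
  unfold f0
  have h1 : 0 ≤ c * (w k / 2 ^ k) := mul_nonneg c_pos.le (div_nonneg (w_nonneg k) (by positivity))
  have h2 := rest_pos
  split_ifs <;> linarith

lemma f0_zero : 0 < f0 0 := by
  unfold f0
  simp [w_zero]
  have := rest_pos
  linarith

lemma f0_sum : HasSum f0 1 := by
  have h1 := (summable_w2.hasSum.mul_left c).add (hasSum_ite_eq (0:ℕ) (1 - c * S2))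
  have e : c * (∑' k : ℕ, w k / 2 ^ k) + (1 - c * S2) = 1 := by unfold S2; ring
  rw [e] at h1
  exact h1

lemma f0_two (k : ℕ) : f0 k * 2 ^ k = c * w k + (if k = 0 then 1 - c * S2 else 0) := by
  unfold f0
  rw [add_mul]
  congr 1
  · field_simp
  · by_cases hk : k = 0
    · simp [hk]
    · simp [hk]

lemma f0_kf (k : ℕ) : (k:ℝ) * f0 k * 2 ^ k = c * ((k:ℝ) * w k) := by
  rw [mul_assoc, f0_two]
  by_cases hk : k = 0
  · simp [hk]
  · simp only [hk, if_false]
    ring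

lemma f0_hasSum2 : HasSum (fun k : ℕ => f0 k * 2 ^ k) (c * S0 + (1 - c * S2)) := by
  simp only [f0_two]
  exact (summable_w.hasSum.mul_left c).add (hasSum_ite_eq (0:ℕ) (1 - c * S2))

lemma f0_hasSum3 : HasSum (fun k : ℕ => (k:ℝ) * f0 k * 2 ^ k) (c * S1) := by
  simp only [f0_kf]
  exact summable_kw.hasSum.mul_left c

lemma f0_good : Good f0 where
  nonneg := f0_nonneg
  sum1 := f0_sum
  s2 := f0_hasSum2.summable
  s2' := f0_hasSum3.summable
  crit := by
    rw [f0_hasSum2.tsum_eq, f0_hasSum3.tsum_eq]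
    have := c_eq
    linarith

lemma Phi_lower (n : ℕ) (hn : 1 ≤ n) : c / (32 * n) ≤ Phi f0 n := by
  have hnpos : (0:ℝ) < n := by exact_mod_cast hn
  have h1 : ∑ k ∈ Ico (2*n) (4*n), ((k - n : ℕ):ℝ) * f0 k * 2 ^ k ≤ Phi f0 n :=
    (summable_Phi f0_good n).sum_le_tsum _ (fun k _ =>
      mul_nonneg (mul_nonneg (Nat.cast_nonneg _) (f0_nonneg k)) (by positivity))
  refine le_trans ?_ h1
  have h2 : ∀ k ∈ Ico (2*n) (4*n), c / (64 * (n:ℝ) ^ 2) ≤ ((k - n : ℕ):ℝ) * f0 k * 2 ^ k := by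
    intro k hk
    rw [Finset.mem_Ico] at hk
    have hk0 : k ≠ 0 := by omega
    rw [mul_assoc, f0_two]
    simp only [hk0, if_false, add_zero]
    have h3 : (n:ℝ) ≤ ((k - n : ℕ):ℝ) := by
      have : n ≤ k - n := by omega
      exact_mod_cast this
    have h4 : 1 / (64 * (n:ℝ) ^ 3) ≤ w k := by
      unfold w
      have hkpos : (0:ℝ) < k := by exact_mod_cast (by omega : 0 < k)
      have h5 : (k:ℝ) ≤ 4 * n := by exact_mod_cast hk.2.le
      apply one_div_le_one_div_of_le (by positivity)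
      calc (k:ℝ) ^ 3 ≤ (4 * n) ^ 3 := by gcongr
        _ = 64 * (n:ℝ) ^ 3 := by ring
    have h6 : 0 ≤ c * w k := mul_nonneg c_pos.le (w_nonneg k)
    calc c / (64 * (n:ℝ) ^ 2) = n * (c * (1 / (64 * (n:ℝ) ^ 3))) := by field_simp
      _ ≤ n * (c * w k) := by
          have := c_pos
          gcongr
      _ ≤ ((k - n : ℕ):ℝ) * (c * w k) := mul_le_mul_of_nonneg_right h3 h6
  have h3 := Finset.card_nsmul_le_sum _ _ _ h2
  rw [Nat.card_Ico, nsmul_eq_mul] at h3
  refine le_trans (le_of_eq ?_) h3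
  have : ((4 * n - 2 * n : ℕ):ℝ) = 2 * n := by
    have : 4 * n - 2 * n = 2 * n := by omega
    rw [this]
    push_cast
    ring
  rw [this]
  field_simp
  ring

/-- From the asymptotics at `s = 1/2` to those of the Riccati forcing term. -/
lemma forcing {f : ℕ → ℝ} (h : Good f)
    (ht : Tendsto (fun n : ℕ => (G (it f n) (1/2) - 1) / (-(8/3) / ((n:ℝ) ^ 2))) atTop (𝓝 1)) :
    Tendsto (fun n : ℕ => (n:ℝ) ^ 2 * ((1 - it f n 0 ^ 2) / 2)) atTop (𝓝 4) := by
  set a : ℕ → ℝ := fun n => 1 - G (it f n) (1/2) with ha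
  have h1 : Tendsto (fun n : ℕ => (n:ℝ) ^ 2 * a n) atTop (𝓝 (8/3)) := by
    have h2 := ht.const_mul (8/3)
    rw [mul_one] at h2
    refine h2.congr' ?_
    filter_upwards [eventually_ge_atTop 1] with n hn
    have hn' : (n:ℝ) ≠ 0 := by
      have : 0 < n := hn
      positivity
    simp only [ha]
    field_simp
    ring
  have hinv : Tendsto (fun n : ℕ => 1 / (n:ℝ) ^ 2) atTop (𝓝 0) := by
    have := tendsto_one_div_atTop_nhds_zero_nat (𝕜 := ℝ)
    have h3 := this.pow 2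
    simpa [one_div, inv_pow] using h3
  have h2 : Tendsto a atTop (𝓝 0) := by
    have h3 := h1.mul hinv
    rw [mul_zero] at h3
    refine h3.congr' ?_
    filter_upwards [eventually_ge_atTop 1] with n hn
    have hn' : (n:ℝ) ≠ 0 := by
      have : 0 < n := hn
      positivity
    field_simp
  have h3 : Tendsto (fun n : ℕ => (n:ℝ) ^ 2 * a (n+1)) atTop (𝓝 (8/3)) := by
    have h4 : Tendsto (fun n : ℕ => ((n + 1 : ℕ):ℝ) ^ 2 * a (n+1)) atTop (𝓝 (8/3)) :=
      (tendsto_add_atTop_iff_nat 1).2 h1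
    have h5 : Tendsto (fun n : ℕ => ((n:ℝ) / ((n:ℝ) + 1)) ^ 2) atTop (𝓝 1) := by
      have := tendsto_natCast_div_add_atTop (1:ℝ)
      simpa using this.pow 2
    have h6 := h5.mul h4
    rw [one_mul] at h6
    refine h6.congr (fun n => ?_)
    have hn : ((n:ℝ) + 1) ≠ 0 := by positivity
    push_cast
    field_simp
  have hsum : ∀ n, Summable (fun k : ℕ => it f n k * (1/2:ℝ) ^ k) := by
    intro n
    refine Summable.of_nonneg_of_le (fun k => ?_) (fun k => ?_) (good_it h n).sum1.summable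
    · exact mul_nonneg ((good_it h n).nonneg k) (by positivity)
    · exact mul_le_of_le_one_right ((good_it h n).nonneg k) (pow_le_one₀ (by norm_num) (by norm_num))
  have hrec : ∀ n, it f n 0 ^ 2 = 2 * G (it f n) (1/2) ^ 2 - G (it f (n+1)) (1/2) := by
    intro n
    have h7 := (hasSum_step (good_it h n).nonneg (by norm_num : (0:ℝ) < 1/2) (hsum n)).tsum_eq
    have h8 : G (it f (n+1)) (1/2) = (G (it f n) (1/2) ^ 2 - it f n 0 ^ 2) / (1/2) + it f n 0 ^ 2 := h7
    rw [h8]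
    ring
  have h9 : ∀ n : ℕ, (n:ℝ) ^ 2 * ((1 - it f n 0 ^ 2) / 2)
      = (4 * ((n:ℝ) ^ 2 * a n) - 2 * ((n:ℝ) ^ 2 * a n) * a n - (n:ℝ) ^ 2 * a (n+1)) / 2 := by
    intro n
    rw [hrec n]
    simp only [ha]
    ring
  simp only [h9]
  have h10 := (((h1.const_mul 4).sub (((h1.const_mul 2).mul h2))).sub h3).div_const 2
  convert h10 using 2
  norm_num

/-- The refutation, in terms of `it`. -/
theorem main : ¬ Tendsto (fun n : ℕ => (G (it f0 n) (1/2) - 1) / (-(8/3) / ((n:ℝ) ^ 2)))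
    atTop (𝓝 1) := by
  intro ht
  have h := f0_good
  have hη := forcing h ht
  set e : ℕ → ℝ := fun n => G (it f0 n) 2 - 1 with he
  have he0 : ∀ n, 0 ≤ e n := fun n => by
    have := one_le_G (good_it h n)
    simp only [he]
    linarith
  have hrec : ∀ n, e (n+1) = e n + e n ^ 2 / 2 - (1 - it f0 n 0 ^ 2) / 2 := by
    intro n
    have h1 : G (it f0 (n+1)) 2 = (G (it f0 n) 2 ^ 2 + it f0 n 0 ^ 2) / 2 := G_step_two (good_it h n)
    simp only [he]
    rw [h1]
    ring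
  obtain ⟨N, hN, hN2⟩ := ode he0 hrec hη
  refine growth (g := fun n => G (it f0 n) 2) (fun n => one_le_G (good_it h n)) hN hN2 (64 / c) ?_
  intro n hn
  have hnpos : (0:ℝ) < n := by exact_mod_cast hn
  have h1 := prod_bound h n
  have h2 := Phi_lower n hn
  have h3 : 0 < ∏ i ∈ range n, G (it f0 i) 2 :=
    Finset.prod_pos (fun i _ => lt_of_lt_of_le zero_lt_one (one_le_G (good_it h i)))
  have h4 : (∏ i ∈ range n, G (it f0 i) 2) * (c / (32 * n)) ≤ 2 :=
    (mul_le_mul_of_nonneg_left h2 h3.le).trans h1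
  have hc := c_pos
  have h5 : ∏ i ∈ range n, G (it f0 i) 2
      = (∏ i ∈ range n, G (it f0 i) 2) * (c / (32 * n)) * (32 * n / c) := by
    field_simp
  rw [h5]
  calc (∏ i ∈ range n, G (it f0 i) 2) * (c / (32 * n)) * (32 * n / c) ≤ 2 * (32 * n / c) :=
        mul_le_mul_of_nonneg_right h4 (by positivity)
    _ = 64 / c * n := by ring

/-- The recursion of the problem, for `m = 2`. -/
lemma step_eq (f : ℕ → ℝ) (k : ℕ) :
    (∑ x : Fin 2 → Fin (k + 2), if (∑ i, (x i : ℕ)) = k + 1 then ∏ i, f (x i) else 0)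
      + (if k = 0 then f 0 ^ 2 else 0) = step f k := by
  unfold step conv
  congr 1
  rw [Fintype.sum_equiv (finTwoArrowEquiv (Fin (k+2))) _
    (fun y : Fin (k+2) × Fin (k+2) => if (y.1:ℕ) + (y.2:ℕ) = k + 1 then f y.1 * f y.2 else 0)
    (fun x => by simp [finTwoArrowEquiv, Fin.sum_univ_two, Fin.prod_univ_two])]
  rw [← Finset.sum_filter]
  refine Finset.sum_bij' (fun y _ => ((y.1:ℕ), (y.2:ℕ)))
    (fun (ij : ℕ × ℕ) h => (⟨ij.1, by
        rw [HasAntidiagonal.mem_antidiagonal] at h; omega⟩, ⟨ij.2, by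
        rw [HasAntidiagonal.mem_antidiagonal] at h; omega⟩)) ?_ ?_ ?_ ?_ ?_
  · intro y hy
    rw [HasAntidiagonal.mem_antidiagonal]
    exact (Finset.mem_filter.1 hy).2
  · intro ij hij
    rw [Finset.mem_filter]
    rw [HasAntidiagonal.mem_antidiagonal] at hij
    exact ⟨Finset.mem_univ _, hij⟩
  · intro y hy
    rfl
  · intro y hy
    rfl
  · intro y hy
    rfl

end Pool.Agent.TH974.DR
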