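import Mathlib

set_option autoImplicit false

namespace Pool.Agent.TH974.N4

open IntermediateField Polynomial

/-- the constants of a derivation, as an intermediate field -/
def constants {FF : Type} [Field FF] [Algebra ℂ FF] (D : Derivation ℂ FF FF) :
    IntermediateField ℂ FF where
  carrier := {x | D x = 0}
  mul_mem' := by
    intro a b ha hb
    have ha' : D a = 0 := ha
    have hb' : D b = 0 := hb
    show D (a * b) = 0
    rw [D.leibniz, ha', hb', smul_zero, smul_zero, add_zero]
  add_mem' := by
    intro a b ha hb
    have ha' : D a = 0 := ha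
    have hb' : D b = 0 := hb
    show D (a + b) = 0
    rw [map_add, ha', hb', add_zero]
  algebraMap_mem' := fun r => D.map_algebraMap r
  inv_mem' := by
    intro x hx
    have hx' : D x = 0 := hx
    show D x⁻¹ = 0
    rw [D.leibniz_inv, hx', smul_zero]

theorem mem_constants {FF : Type} [Field FF] [Algebra ℂ FF] (D : Derivation ℂ FF FF) (x : FF) :
    x ∈ constants D ↔ D x = 0 := Iff.rfl

open scoped IntermediateField.algebraAdjoinAdjoin in
theorem isAlgebraic_adjoin_iff {FF : Type} [Field FF] [Algebra ℂ FF] (s : Set FF) (x : FF) :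
    IsAlgebraic (Algebra.adjoin ℂ s) x ↔ IsAlgebraic (IntermediateField.adjoin ℂ s) x :=
  IsFractionRing.isAlgebraic_iff (Algebra.adjoin ℂ s) (IntermediateField.adjoin ℂ s) FF

theorem der_const {FF : Type} [Field FF] [Algebra ℂ FF] (g y : FF)
    (hind : AlgebraicIndependent ℂ ![g, y])
    (halg : ∀ z : FF, IsAlgebraic (IntermediateField.adjoin ℂ {g, y}) z)
    (D2 : Derivation ℂ FF FF) (h1 : D2 g = 0) (h2 : D2 y = 1) (z : FF) (hz : D2 z = 0) :
    IsAlgebraic (IntermediateField.adjoin ℂ {g}) z := by
  by_contra hna
  have hzc : z ∈ (AlgebraicIndependent.matroid ℂ FF).closure (insert y {g}) := by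
    rw [AlgebraicIndependent.matroid_closure_eq]
    have := halg z
    rw [← isAlgebraic_adjoin_iff, Set.pair_comm] at this
    exact this
  have hzn : z ∉ (AlgebraicIndependent.matroid ℂ FF).closure {g} := by
    rw [AlgebraicIndependent.matroid_closure_eq]
    intro h
    exact hna ((isAlgebraic_adjoin_iff _ _).1 h)
  have hy := (Matroid.closure_exchange ⟨hzc, hzn⟩).1
  rw [AlgebraicIndependent.matroid_closure_eq] at hy
  have hy' : IsAlgebraic (IntermediateField.adjoin ℂ (insert z {g})) y :=
    (isAlgebraic_adjoin_iff _ _).1 hy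
  have hle : IntermediateField.adjoin ℂ (insert z {g}) ≤ constants D2 := by
    rw [IntermediateField.adjoin_le_iff]
    intro x hx
    rcases hx with rfl | hx
    · exact hz
    · rw [Set.mem_singleton_iff] at hx
      subst hx
      exact h1
  set K2 := IntermediateField.adjoin ℂ (insert z ({g} : Set FF)) with hK2
  let D' : Derivation K2 FF FF :=
    { toFun := D2
      map_add' := fun a b => map_add D2 a b
      map_smul' := by
        intro c x
        show D2 (c • x) = c • D2 x
        have hc : D2 (c : FF) = 0 := hle c.2
        rw [Algebra.smul_def, Algebra.smul_def, D2.leibniz]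
        have : algebraMap K2 FF c = (c : FF) := rfl
        rw [this, hc, smul_zero, add_zero, smul_eq_mul]
      map_one_eq_zero' := D2.map_one_eq_zero
      leibniz' := fun a b => D2.leibniz a b }
  have hint : IsIntegral K2 y := hy'.isIntegral
  have hsep : (minpoly K2 y).Separable := (minpoly.irreducible hint).separable
  have h0 : D' (aeval y (minpoly K2 y)) = 0 := by rw [minpoly.aeval, map_zero]
  rw [Derivation.map_aeval] at h0
  have hD : D' y = 1 := h2
  rw [hD, smul_eq_mul, mul_one] at h0
  exact hsep.aeval_derivative_ne_zero (minpoly.aeval K2 y) h0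

end Pool.Agent.TH974.N4
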