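import Pool.Agent.TH974.Kalai

/-!
# Kalai's conjecture for cones over caterpillars

The tight `r`-trees `K * C`: `K` is a set of `r - 2` vertices which lie in all edges and the pairs
`{a i, b i}`, `i < t`, are the edges of a caterpillar `C` (in particular of a path) disjoint from
`K`.  Every caterpillar with `t` edges has an ordering of its edges in which each edge arises from
the previous one by replacing one of its two ends by a new vertex.
-/

set_option autoImplicit false

namespace Pool.Agent.TH974.ConeCaterpillars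

/-- The pairs `{a i, b i}`, `i < t`, are the edges of a caterpillar, in an order in which each edge
arises from the previous one by replacing one of its two ends by a new vertex. -/
def Caterpillar (t : ℕ) (a b : ℕ → ℕ) : Prop :=
  a 0 ≠ b 0 ∧ ∀ i, i + 1 < t →
    (a (i + 1) = a i ∧ ∀ j ≤ i, b (i + 1) ≠ a j ∧ b (i + 1) ≠ b j) ∨
    (b (i + 1) = b i ∧ ∀ j ≤ i, a (i + 1) ≠ a j ∧ a (i + 1) ≠ b j)

/-- Kalai's bound for the cones over caterpillars, also with the shadow of `H`. -/
theorem result :
    ∀ (r t : ℕ), 2 ≤ r → 1 ≤ t →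
    ∀ (K : Finset ℕ) (a b : ℕ → ℕ), K.card = r - 2 → Caterpillar t a b →
      (∀ i, i < t → a i ∉ K ∧ b i ∉ K) →
    ∀ (n : ℕ) (H : Finset (Finset (Fin n))),
      (∀ h ∈ H, h.card = r) →
      (¬ ∃ f : ℕ → Fin n,
          Set.InjOn f {x : ℕ | ∃ i, i < t ∧ x ∈ K ∪ {a i, b i}} ∧
          ∀ i, i < t → (K ∪ {a i, b i}).image f ∈ H) →
      (H.card : ℝ) ≤ ((t : ℝ) - 1) / (r : ℝ) * ((Finset.shadow H).card : ℝ) ∧
      (H.card : ℝ) ≤ ((t : ℝ) - 1) / (r : ℝ) * ((n.choose (r - 1) : ℕ) : ℝ) := by
  intro r t hr ht K a b hK hab hKab n H hH hno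
  have h := TH974.Kalai.main t ht a b hab K hKab
  have e : K.card + 2 = r := by omega
  rw [e] at h
  have h1 := h n H hH hno
  have hr0 : (0 : ℝ) < r := by
    have : 0 < r := by omega
    exact_mod_cast this
  have ht0 : (0 : ℝ) ≤ (t : ℝ) - 1 := by
    have : (1 : ℝ) ≤ t := by exact_mod_cast ht
    linarith
  have h2 : (H.card : ℝ) ≤ ((t : ℝ) - 1) / (r : ℝ) * ((Finset.shadow H).card : ℝ) := by
    rw [div_mul_eq_mul_div, le_div_iff₀ hr0]
    linarith
  refine ⟨h2, h2.trans ?_⟩
  apply mul_le_mul_of_nonneg_left _ (div_nonneg ht0 hr0.le)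
  have h3 : Finset.shadow H ⊆ Finset.powersetCard (r - 1) (Finset.univ : Finset (Fin n)) := by
    intro s hs
    rw [Finset.mem_powersetCard]
    refine ⟨Finset.subset_univ _, ?_⟩
    obtain ⟨y, hy, hys⟩ := Finset.mem_shadow_iff_insert_mem.1 hs
    have h4 := hH _ hys
    rw [Finset.card_insert_of_notMem hy] at h4
    omega
  have h5 := Finset.card_le_card h3
  rw [Finset.card_powersetCard, Finset.card_univ, Fintype.card_fin] at h5
  exact_mod_cast h5

end Pool.Agent.TH974.ConeCaterpillars
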