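import Mathlib

/-!
# Ramsey numbers of degenerate graphs versus `K_{n,n}`: a logarithmic improvement
-/

set_option autoImplicit false

namespace Pool.Agent.TH974.DegLog

open Finset
open scoped Classical

variable {V : Type*}

/-- edges between large disjoint sets -/
def NoK (G : SimpleGraph V) (n : ℕ) : Prop :=
  ∀ A B : Finset V, Disjoint A B → n ≤ A.card → n ≤ B.card → ∃ a ∈ A, ∃ b ∈ B, G.Adj a b

lemma noK_of (G : SimpleGraph V) (n : ℕ)
    (h : ¬ (completeBipartiteGraph (Fin n) (Fin n)).IsContained Gᶜ) : NoK G n := by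
  intro A B hAB hA hB
  by_contra hcon
  push Not at hcon
  apply h
  have e1 : Nonempty (Fin n ↪ A) := Function.Embedding.nonempty_of_card_le (by simpa using hA)
  have e2 : Nonempty (Fin n ↪ B) := Function.Embedding.nonempty_of_card_le (by simpa using hB)
  obtain ⟨e1⟩ := e1
  obtain ⟨e2⟩ := e2
  have hne : ∀ a b, ((e1 a : A) : V) ≠ ((e2 b : B) : V) := by
    intro a b hab
    exact disjoint_left.1 hAB (e1 a).2 (hab ▸ (e2 b).2)
  refine ⟨⟨⟨Sum.elim (fun a => ((e1 a : A) : V)) (fun b => ((e2 b : B) : V)), ?_⟩, ?_⟩⟩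
  · intro x y hxy
    rw [completeBipartiteGraph_adj] at hxy
    rw [SimpleGraph.compl_adj]
    rcases x with x | x <;> rcases y with y | y <;> simp at hxy
    · exact ⟨hne x y, hcon _ (e1 x).2 _ (e2 y).2⟩
    · exact ⟨(hne y x).symm, fun h => hcon _ (e1 y).2 _ (e2 x).2 h.symm⟩
  · intro x y hxy
    rcases x with x | x <;> rcases y with y | y
    · have : ((e1 x : A) : V) = ((e1 y : A) : V) := hxy
      rw [e1.injective (Subtype.ext this)]
    · exact absurd hxy (hne x y)
    · exact absurd hxy.symm (hne y x)
    · have : ((e2 x : B) : V) = ((e2 y : B) : V) := hxy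
      rw [e2.injective (Subtype.ext this)]

/-- double counting -/
lemma dc (G : SimpleGraph V) (A B : Finset V) :
    ∑ a ∈ A, ((B.filter fun b => G.Adj a b).card : ℝ) =
      ∑ b ∈ B, ((A.filter fun a => G.Adj b a).card : ℝ) := by
  have := Finset.sum_card_bipartiteAbove_eq_sum_card_bipartiteBelow (s := A) (t := B)
    (fun a b => G.Adj a b)
  have h2 : ∑ b ∈ B, (A.filter fun a => G.Adj b a).card =
      ∑ b ∈ B, (A.filter fun a => G.Adj a b).card := by
    apply sum_congr rfl
    intro b _
    congr 1
    ext a
    simp [G.adj_comm]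
  have h3 : ∑ a ∈ A, (B.filter fun b => G.Adj a b).card =
      ∑ b ∈ B, (A.filter fun a => G.Adj b a).card := by
    rw [h2]
    exact this
  exact_mod_cast h3

/-- a sparse pair contains a large empty pair -/
lemma sparse_pair (G : SimpleGraph V) (n : ℕ) (W S : Finset V) (q : ℝ) (hq0 : 0 < q)
    (hq : q ≤ 1 / 8) (hW : 2 * n ≤ W.card) (hn : 1 ≤ n)
    (hsp : ∀ w ∈ W, ((S.filter fun b => G.Adj w b).card : ℝ) ≤ q * S.card)
    (hS : (n : ℝ) ≤ (1 - 4 * q) ^ n * S.card / 2) :
    ∃ A ⊆ W, ∃ B ⊆ S, n ≤ A.card ∧ n ≤ B.card ∧ ∀ a ∈ A, ∀ b ∈ B, ¬ G.Adj a b := by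
  have hWr : (2 : ℝ) * n ≤ W.card := by exact_mod_cast hW
  have hnr : (1 : ℝ) ≤ n := by exact_mod_cast hn
  have hWpos : (0 : ℝ) < W.card := by linarith
  set S' := S.filter fun u => ((W.filter fun w => G.Adj u w).card : ℝ) ≤ 2 * q * W.card with hS'
  have hhalf : (S.card : ℝ) / 2 ≤ S'.card := by
    have h1 : ∑ u ∈ S, ((W.filter fun w => G.Adj u w).card : ℝ) ≤ q * S.card * W.card := by
      rw [← dc]
      calc _ ≤ ∑ w ∈ W, q * (S.card : ℝ) := sum_le_sum hsp
        _ = _ := by rw [sum_const, nsmul_eq_mul]; ring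
    have h2 : ((S.filter fun u => ¬ ((W.filter fun w => G.Adj u w).card : ℝ) ≤
        2 * q * W.card).card : ℝ) * (2 * q * W.card) ≤
        ∑ u ∈ S, ((W.filter fun w => G.Adj u w).card : ℝ) := by
      rw [← nsmul_eq_mul, ← sum_const]
      refine le_trans (sum_le_sum (f := fun _ => (2 * q * W.card : ℝ))
        (g := fun u => ((W.filter fun w => G.Adj u w).card : ℝ)) ?_) ?_
      · intro u hu
        have := (mem_filter.1 hu).2
        push Not at this
        exact this.le
      · exact sum_le_sum_of_subset_of_nonneg (filter_subset _ _) fun _ _ _ => Nat.cast_nonneg _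
    have h3 : (S'.card : ℝ) + ((S.filter fun u => ¬ ((W.filter fun w => G.Adj u w).card : ℝ) ≤
        2 * q * W.card).card : ℝ) = S.card := by
      rw [hS']
      exact_mod_cast card_filter_add_card_filter_not _
    set x := ((S.filter fun u => ¬ ((W.filter fun w => G.Adj u w).card : ℝ) ≤
        2 * q * W.card).card : ℝ)
    have h4 : x * (2 * q * W.card) ≤ (S.card / 2 : ℝ) * (2 * q * W.card) := by
      refine le_trans h2 (le_trans h1 (le_of_eq (by ring)))
    have h5 : x ≤ (S.card / 2 : ℝ) := le_of_mul_le_mul_right h4 (by positivity)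
    linarith
  have hgr : ∀ i ≤ n, ∃ A ⊆ W, ∃ B ⊆ S', A.card = i ∧ (1 - 4 * q) ^ i * (S'.card : ℝ) ≤ B.card ∧
      ∀ a ∈ A, ∀ b ∈ B, ¬ G.Adj a b := by
    intro i
    induction i with
    | zero =>
      intro _
      exact ⟨∅, by simp, S', Subset.refl _, rfl, by simp, by simp⟩
    | succ i ih =>
      intro hi
      obtain ⟨A, hA, B, hB, hAc, hBc, hAB⟩ := ih (by omega)
      have hWA : (W.card : ℝ) / 2 ≤ (W \ A).card := by
        have h1 : (W \ A).card = W.card - A.card := card_sdiff_of_subset hA
        have h2 : W.card ≤ 2 * (W \ A).card := by omega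
        have h3 : (W.card : ℝ) ≤ 2 * (W \ A).card := by exact_mod_cast h2
        linarith
      have hne : (W \ A).Nonempty := by
        rw [← card_pos]
        have : (0 : ℝ) < (W \ A).card := by linarith
        exact_mod_cast this
      obtain ⟨w, hw, hwB⟩ : ∃ w ∈ W \ A, ((B.filter fun b => G.Adj w b).card : ℝ) ≤ 4 * q * B.card := by
        by_contra hcon
        push Not at hcon
        have h1 : ∑ w ∈ W \ A, (4 * q * B.card : ℝ) <
            ∑ w ∈ W \ A, ((B.filter fun b => G.Adj w b).card : ℝ) := sum_lt_sum_of_nonempty hne hcon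
        rw [dc, sum_const, nsmul_eq_mul] at h1
        have h2 : ∑ b ∈ B, (((W \ A).filter fun a => G.Adj b a).card : ℝ) ≤
            ∑ b ∈ B, (2 * q * W.card : ℝ) := by
          apply sum_le_sum
          intro b hb
          refine le_trans ?_ (mem_filter.1 (hB hb)).2
          exact_mod_cast card_le_card (filter_subset_filter _ sdiff_subset)
        rw [sum_const, nsmul_eq_mul] at h2
        have h3 : (W.card : ℝ) / 2 * (4 * q * B.card) ≤ (W \ A).card * (4 * q * B.card) :=
          mul_le_mul_of_nonneg_right hWA (by positivity)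
        nlinarith
      obtain ⟨hwW, hwA⟩ := mem_sdiff.1 hw
      refine ⟨insert w A, insert_subset hwW hA, B.filter (fun b => ¬ G.Adj w b),
        (filter_subset _ _).trans hB, ?_, ?_, ?_⟩
      · rw [card_insert_of_notMem hwA, hAc]
      · have h1 : ((B.filter fun b => G.Adj w b).card : ℝ) +
            ((B.filter fun b => ¬ G.Adj w b).card : ℝ) = B.card := by
          exact_mod_cast card_filter_add_card_filter_not _
        rw [pow_succ]
        have h2 : (1 - 4 * q) ^ i * (1 - 4 * q) * (S'.card : ℝ) ≤ (1 - 4 * q) * B.card := by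
          have := mul_le_mul_of_nonneg_left hBc (by linarith : (0 : ℝ) ≤ 1 - 4 * q)
          linarith
        linarith
      · intro a ha b hb
        obtain ⟨hb1, hb2⟩ := mem_filter.1 hb
        rcases mem_insert.1 ha with rfl | ha
        · exact hb2
        · exact hAB a ha b hb1
  obtain ⟨A, hA, B, hB, hAc, hBc, hAB⟩ := hgr n le_rfl
  refine ⟨A, hA, B, hB.trans (filter_subset _ _), hAc.ge, ?_, hAB⟩
  have h1 : (n : ℝ) ≤ B.card := by
    refine le_trans hS (le_trans ?_ hBc)
    have h2 : (0 : ℝ) ≤ (1 - 4 * q) ^ n := pow_nonneg (by linarith) _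
    have := mul_le_mul_of_nonneg_left hhalf h2
    linarith
  exact_mod_cast h1

/-- number of neighbours of `i` placed before time `t` -/
noncomputable def bt {k : ℕ} (H : SimpleGraph (Fin k)) (f : Fin k → ℕ) (t : ℕ) (i : Fin k) : ℕ :=
  (univ.filter fun j => H.Adj i j ∧ f j < t).card

/-- the greedy embedding -/
lemma embed (G : SimpleGraph V) (k n R M : ℕ) (q : ℝ) (hn : 1 ≤ n) (hR : 1 ≤ R)
    (H : SimpleGraph (Fin k)) (f : Fin k → ℕ) (hf : Function.Injective f)
    (hb : ∀ v : Fin k, (univ.filter fun u => H.Adj v u ∧ f u < f v).card ≤ R)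
    (hb' : ∀ v w : Fin k, H.Adj v w → f v < f w →
      (univ.filter fun u => H.Adj v u ∧ f u < f v).card + 1 ≤ R)
    (W : Fin k → Finset V) (hW : ∀ i j, i ≠ j → Disjoint (W i) (W j)) (hWM : ∀ i, M ≤ (W i).card)
    (hq0 : 0 < q) (hq : q ≤ 1 / 8)
    (h1 : (2 * n * k + 1 : ℝ) ≤ M * q ^ (R - 1))
    (h2 : ∀ s : ℝ, (2 * n * k + 1 : ℝ) ≤ q * s → (n : ℝ) ≤ (1 - 4 * q) ^ n * s / 2)
    (hG : NoK G n) (t : ℕ) :
    ∃ (φ : Fin k → V) (U : Fin k → Finset V), (∀ i, U i ⊆ W i) ∧ (∀ i, f i < t → φ i ∈ W i) ∧
      (∀ i j, f i < t → f j < t → H.Adj i j → G.Adj (φ i) (φ j)) ∧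
      (∀ i, t ≤ f i → ∀ j, f j < t → H.Adj i j → ∀ x ∈ U i, G.Adj x (φ j)) ∧
      (∀ i, t ≤ f i → (bt H f t i < R → (M : ℝ) * q ^ (bt H f t i) ≤ (U i).card) ∧
        0 < (U i).card) := by
  have hnr : (1 : ℝ) ≤ n := by exact_mod_cast hn
  have hq1 : q ≤ 1 := by linarith
  have hMq : ∀ b : ℕ, b < R → (2 * n * k + 1 : ℝ) ≤ M * q ^ b := by
    intro b hb
    refine le_trans h1 (mul_le_mul_of_nonneg_left ?_ (Nat.cast_nonneg _))
    exact pow_le_pow_of_le_one hq0.le hq1 (by omega)
  have hbt : ∀ (t : ℕ) (i : Fin k), t ≤ f i → bt H f t i ≤ R := by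
    intro t i hti
    refine le_trans (card_le_card ?_) (hb i)
    intro u hu
    simp only [mem_filter, mem_univ, true_and] at hu ⊢
    exact ⟨hu.1, by omega⟩
  have hM1 : 1 ≤ M := by
    rcases Nat.eq_zero_or_pos M with h0 | h0
    · exfalso
      have := hMq 0 (by omega)
      rw [h0] at this
      have : (0 : ℝ) ≤ 2 * n * k := by positivity
      norm_num at *
      linarith
    · exact h0
  induction t with
  | zero =>
    by_cases hk : Nonempty (Fin k)
    · obtain ⟨i0⟩ := hk
      obtain ⟨x, -⟩ := card_pos.1 (lt_of_lt_of_le hM1 (hWM i0))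
      refine ⟨fun _ => x, W, fun _ => Subset.refl _, by simp, by simp, by simp, ?_⟩
      intro i _
      have h0 : bt H f 0 i = 0 := by
        simp [bt]
      rw [h0]
      refine ⟨fun _ => ?_, lt_of_lt_of_le hM1 (hWM i)⟩
      rw [pow_zero, mul_one]
      exact_mod_cast hWM i
    · exact ⟨fun i => absurd ⟨i⟩ hk, W, fun i => absurd ⟨i⟩ hk, fun i => absurd ⟨i⟩ hk,
        fun i => absurd ⟨i⟩ hk, fun i => absurd ⟨i⟩ hk, fun i => absurd ⟨i⟩ hk⟩
  | succ t ih =>
    obtain ⟨φ, U, hU, g1, g2, g3, g4⟩ := ih
    by_cases hi : ∃ i, f i = t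
    swap
    · push Not at hi
      have hlt : ∀ i, f i < t + 1 ↔ f i < t := fun i => by
        have := hi i
        omega
      have hbb : ∀ i, bt H f (t + 1) i = bt H f t i := by
        intro i
        unfold bt
        simp [hlt]
      refine ⟨φ, U, hU, fun i h => g1 i ((hlt i).1 h), fun i j a b => g2 i j ((hlt i).1 a) ((hlt j).1 b),
        fun i h j hj => g3 i (by omega) j ((hlt j).1 hj), fun i h => ?_⟩
      rw [hbb]
      exact g4 i (by omega)
    obtain ⟨i, hi⟩ := hi
    -- good vertices
    have hsel : ∃ x ∈ U i, ∀ j, H.Adj i j → t < f j →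
        (bt H f t j + 1 < R → q * (U j).card ≤ (((U j).filter fun b => G.Adj x b).card : ℝ)) ∧
          0 < ((U j).filter fun b => G.Adj x b).card := by
      by_cases hfw : ∃ j, H.Adj i j ∧ t < f j
      swap
      · obtain ⟨x, hx⟩ := card_pos.1 (g4 i hi.ge).2
        exact ⟨x, hx, fun j h1 h2 => absurd ⟨j, h1, h2⟩ hfw⟩
      obtain ⟨j0, hj0, hj0t⟩ := hfw
      have hbi : bt H f t i < R := by
        have := hb' i j0 hj0 (by omega)
        rw [hi] at this
        exact this
      have hUi : (2 * n * k + 1 : ℝ) ≤ (U i).card := le_trans (hMq _ hbi) ((g4 i hi.ge).1 hbi)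
      -- bad sets
      set Bad : Fin k → Finset V := fun j => (U i).filter fun x => H.Adj i j ∧ t < f j ∧
        ¬ ((bt H f t j + 1 < R → q * (U j).card ≤ (((U j).filter fun b => G.Adj x b).card : ℝ)) ∧
          0 < ((U j).filter fun b => G.Adj x b).card) with hBad
      have hBc : ∀ j, (Bad j).card < 2 * n := by
        intro j
        by_contra hcon
        push Not at hcon
        have hpos : 0 < (Bad j).card := by omega
        obtain ⟨x0, hx0⟩ := card_pos.1 hpos
        obtain ⟨hx1, hij, htj, -⟩ := mem_filter.1 hx0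
        have hne : i ≠ j := hij.ne
        have hsub : Bad j ⊆ U i := filter_subset _ _
        have hdis : ∀ A ⊆ Bad j, ∀ B ⊆ U j, Disjoint A B := fun A hA B hB =>
          disjoint_of_subset_left (hA.trans (hsub.trans (hU i)))
            (disjoint_of_subset_right (hB.trans (hU j)) (hW i j hne))
        have hbj1 : bt H f t j + 1 ≤ R := by
          have h5 := hbt (t + 1) j (by omega)
          refine le_trans ?_ h5
          unfold bt
          have h6 : insert i (univ.filter fun u => H.Adj j u ∧ f u < t) ⊆
              univ.filter fun u => H.Adj j u ∧ f u < t + 1 := by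
            intro u hu
            rcases mem_insert.1 hu with rfl | hu
            · simp only [mem_filter, mem_univ, true_and]
              exact ⟨hij.symm, by omega⟩
            · simp only [mem_filter, mem_univ, true_and] at hu ⊢
              exact ⟨hu.1, by omega⟩
          have h7 := card_le_card h6
          rw [card_insert_of_notMem] at h7
          · exact h7
          · simp only [mem_filter, mem_univ, true_and, not_and]
            intro _
            omega
        have hbjR : bt H f t j < R := by omega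
        have hUj := (g4 j htj.le).1 hbjR
        by_cases hcase : bt H f t j + 1 < R
        · -- sparse pair
          have hs : (2 * n * k + 1 : ℝ) ≤ q * (U j).card := by
            refine le_trans (hMq _ hcase) ?_
            rw [pow_succ]
            have := mul_le_mul_of_nonneg_left hUj hq0.le
            linarith
          obtain ⟨A, hA, B, hB, hAc, hBc, hAB⟩ := sparse_pair G n (Bad j) (U j) q hq0 hq hcon hn
            (by
              intro x hx
              obtain ⟨-, -, -, hx4⟩ := mem_filter.1 hx
              by_contra hc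
              push Not at hc
              apply hx4
              refine ⟨fun _ => hc.le, ?_⟩
              have h8 : (0 : ℝ) < ((U j).filter fun b => G.Adj x b).card := by
                refine lt_of_le_of_lt ?_ hc
                positivity
              exact_mod_cast h8) (h2 _ hs)
          obtain ⟨a, ha, b, hb1, hab⟩ := hG A B (hdis A hA B hB) hAc hBc
          exact hAB a ha b hb1 hab
        · have hUn : n ≤ (U j).card := by
            have h8 : (n : ℝ) ≤ (U j).card := by
              refine le_trans ?_ (le_trans (hMq _ hbjR) hUj)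
              have hk1 : (1 : ℝ) ≤ k := by
                have : 0 < k := lt_of_le_of_lt (Nat.zero_le _) i.2
                exact_mod_cast this
              nlinarith
            exact_mod_cast h8
          obtain ⟨a, ha, b, hb1, hab⟩ := hG (Bad j) (U j) (hdis _ (Subset.refl _) _ (Subset.refl _))
            (by omega) hUn
          obtain ⟨-, -, -, hx4⟩ := mem_filter.1 ha
          apply hx4
          exact ⟨fun h => absurd h hcase, card_pos.2 ⟨b, mem_filter.2 ⟨hb1, hab⟩⟩⟩
      have hnot : ¬ U i ⊆ univ.biUnion Bad := by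
        intro hsub
        have h5 := card_le_card hsub
        have h6 : (univ.biUnion Bad).card ≤ ∑ j : Fin k, (Bad j).card := card_biUnion_le
        have h7 : ∑ j : Fin k, (Bad j).card ≤ ∑ j : Fin k, 2 * n :=
          sum_le_sum fun j _ => (hBc j).le
        rw [sum_const, card_univ, Fintype.card_fin, smul_eq_mul] at h7
        have h8 : (U i).card ≤ k * (2 * n) := by omega
        have h9 : ((U i).card : ℝ) ≤ k * (2 * n) := by exact_mod_cast h8
        linarith
      rw [not_subset] at hnot
      obtain ⟨x, hx, hxB⟩ := hnot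
      refine ⟨x, hx, fun j hij htj => ?_⟩
      by_contra hcon
      exact hxB (mem_biUnion.2 ⟨j, mem_univ _, mem_filter.2 ⟨hx, hij, htj, hcon⟩⟩)
    obtain ⟨x, hx, hxg⟩ := hsel
    have hlt : ∀ j, f j < t + 1 → j ≠ i → f j < t := by
      intro j hj hne
      have : f j ≠ f i := fun h => hne (hf h)
      omega
    refine ⟨Function.update φ i x,
      fun j => if H.Adj i j then (U j).filter fun b => G.Adj x b else U j, ?_, ?_, ?_, ?_, ?_⟩
    · intro j
      dsimp only
      split_ifs
      · exact (filter_subset _ _).trans (hU j)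
      · exact hU j
    · intro j hj
      by_cases hji : j = i
      · rw [hji, Function.update_self]
        exact hU i hx
      · rw [Function.update_of_ne hji]
        exact g1 j (hlt j hj hji)
    · intro a b ha hb hab
      by_cases hai : a = i <;> by_cases hbi : b = i
      · rw [hai, hbi] at hab
        exact absurd rfl hab.ne
      · rw [hai, Function.update_self, Function.update_of_ne hbi]
        rw [hai] at hab
        exact g3 i hi.ge b (hlt b hb hbi) hab x hx
      · rw [hbi, Function.update_self, Function.update_of_ne hai]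
        rw [hbi] at hab
        exact (g3 i hi.ge a (hlt a ha hai) hab.symm x hx).symm
      · rw [Function.update_of_ne hai, Function.update_of_ne hbi]
        exact g2 a b (hlt a ha hai) (hlt b hb hbi) hab
    · intro a ha j hj haj y hy
      dsimp only at hy
      by_cases hji : j = i
      · rw [hji] at haj
        rw [hji, Function.update_self]
        rw [if_pos haj.symm] at hy
        exact (mem_filter.1 hy).2.symm
      · rw [Function.update_of_ne hji]
        apply g3 a (by omega) j (hlt j hj hji) haj
        split_ifs at hy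
        · exact (mem_filter.1 hy).1
        · exact hy
    · intro j hj
      have g5 := g4 j (by omega)
      by_cases hij : H.Adj i j
      · have h5 : bt H f (t + 1) j = bt H f t j + 1 := by
          unfold bt
          have h6 : (univ.filter fun u => H.Adj j u ∧ f u < t + 1) =
              insert i (univ.filter fun u => H.Adj j u ∧ f u < t) := by
            ext u
            simp only [mem_filter, mem_univ, true_and, mem_insert]
            constructor
            · rintro ⟨a1, a2⟩
              by_cases hui : u = i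
              · exact Or.inl hui
              · exact Or.inr ⟨a1, hlt u a2 hui⟩
            · rintro (rfl | ⟨a1, a2⟩)
              · exact ⟨hij.symm, by omega⟩
              · exact ⟨a1, by omega⟩
          rw [h6, card_insert_of_notMem]
          simp only [mem_filter, mem_univ, true_and, not_and]
          intro _
          omega
        simp only [if_pos hij]
        rw [h5]
        obtain ⟨k1, k2⟩ := hxg j hij (by omega)
        refine ⟨fun hlt' => ?_, k2⟩
        refine le_trans ?_ (k1 hlt')
        rw [pow_succ]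
        have := mul_le_mul_of_nonneg_left (g5.1 (by omega)) hq0.le
        linarith
      · have h5 : bt H f (t + 1) j = bt H f t j := by
          unfold bt
          congr 1
          ext u
          simp only [mem_filter, mem_univ, true_and]
          constructor
          · rintro ⟨a1, a2⟩
            refine ⟨a1, hlt u a2 ?_⟩
            rintro rfl
            exact hij a1.symm
          · rintro ⟨a1, a2⟩
            exact ⟨a1, by omega⟩
        simp only [if_neg hij]
        rw [h5]
        exact g5

/-- `H` is contained in `G` or `K_{n,n}` is contained in the complement -/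
theorem main (R k : ℕ) (hR : 1 ≤ R) (H : SimpleGraph (Fin k)) (f : Fin k → ℕ)
    (hf : Function.Injective f)
    (hb : ∀ v : Fin k, (univ.filter fun u => H.Adj v u ∧ f u < f v).card ≤ R)
    (hb' : ∀ v w : Fin k, H.Adj v w → f v < f w →
      (univ.filter fun u => H.Adj v u ∧ f u < f v).card + 1 ≤ R) :
    ∃ C : ℝ, ∀ n N : ℕ, 2 ≤ n → C * (n : ℝ) ^ R / Real.log n ^ (R - 1) ≤ N →
      ∀ G : SimpleGraph (Fin N), H.IsContained G ∨
        (completeBipartiteGraph (Fin n) (Fin n)).IsContained Gᶜ := by
  rcases Nat.eq_zero_or_pos k with rfl | hk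
  · exact ⟨0, fun n N _ _ G => Or.inl ⟨⟨⟨fun i => i.elim0, fun {a} => a.elim0⟩,
      fun a => a.elim0⟩⟩⟩
  refine ⟨(16 : ℝ) ^ (R - 1) * (k * (2 * k + 2)), ?_⟩
  intro n N hn hN G
  by_cases hcon : (completeBipartiteGraph (Fin n) (Fin n)).IsContained Gᶜ
  · exact Or.inr hcon
  left
  have hG := noK_of G n hcon
  have hk' : (1 : ℝ) ≤ k := by exact_mod_cast hk
  have hnr : (2 : ℝ) ≤ n := by exact_mod_cast hn
  have hn0 : (0 : ℝ) < n := by linarith
  set L := Real.log n with hL
  have hLpos : 0 < L := Real.log_pos (by linarith)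
  set w := Real.sqrt n with hw
  have hwpos : 0 < w := Real.sqrt_pos.2 hn0
  have hww : w * w = n := Real.mul_self_sqrt hn0.le
  have hLw : L / 2 ≤ w := by
    have h1 : Real.log w ≤ w - 1 := Real.log_le_sub_one_of_pos hwpos
    have h2 : L = Real.log w + Real.log w := by
      rw [← Real.log_mul hwpos.ne' hwpos.ne', hww]
    linarith
  have hLn : L ≤ n := by
    have := Real.log_le_sub_one_of_pos hn0
    linarith
  have hexp : Real.exp (L / 2) = w := by
    have h1 : Real.exp (L / 2) * Real.exp (L / 2) = n := by
      rw [← Real.exp_add, add_halves, hL, Real.exp_log hn0]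
    rw [hw, ← h1]
    exact (Real.sqrt_mul_self (Real.exp_pos _).le).symm
  set M := N / k with hM
  have hkM : k * M ≤ N := Nat.mul_div_le N k
  have hkM' : N < k * (M + 1) := Nat.lt_mul_div_succ N hk
  have hkMr : (N : ℝ) ≤ k * (M + 1) := by exact_mod_cast hkM'.le
  obtain ⟨e⟩ : Nonempty (Fin k × Fin M ↪ Fin N) :=
    Function.Embedding.nonempty_of_card_le (by simpa using hkM)
  set W : Fin k → Finset (Fin N) := fun i => univ.image fun a : Fin M => e (i, a) with hWdef
  have hWc : ∀ i, M ≤ (W i).card := by
    intro i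
    rw [hWdef]
    dsimp only
    rw [card_image_of_injective]
    · simp
    · intro a b hab
      have := e.injective hab
      simpa using this
  have hWd : ∀ i j, i ≠ j → Disjoint (W i) (W j) := by
    intro i j hij
    rw [disjoint_left]
    intro x hx hy
    obtain ⟨a, -, ha⟩ := mem_image.1 hx
    obtain ⟨b, -, hb⟩ := mem_image.1 hy
    have h3 := e.injective (ha.trans hb.symm)
    exact hij (congrArg Prod.fst h3)
  set q : ℝ := L / (16 * n) with hq
  have hq0 : 0 < q := by positivity
  have hq1 : q ≤ 1 / 16 := by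
    rw [hq, div_le_div_iff₀ (by positivity) (by norm_num)]
    linarith
  have hqn : q * (16 * n) = L := by
    rw [hq]
    field_simp
  have h1 : (2 * n * k + 1 : ℝ) ≤ M * q ^ (R - 1) := by
    have hqp : 0 ≤ q ^ (R - 1) := by positivity
    have hqp1 : q ^ (R - 1) ≤ 1 := pow_le_one₀ hq0.le (by linarith)
    have h3 : (k * (2 * k + 2) : ℝ) * n ≤ N * q ^ (R - 1) := by
      have h4 := mul_le_mul_of_nonneg_right hN hqp
      refine le_trans (le_of_eq ?_) h4
      rw [hq, div_pow, mul_pow]
      have h5 : (n : ℝ) ^ R = (n : ℝ) ^ (R - 1) * n := by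
        rw [← pow_succ]
        congr 1
        omega
      rw [h5]
      have h6 : L ^ (R - 1) ≠ 0 := by positivity
      field_simp
    have h5 : (k : ℝ) * ((2 * k + 2) * n) ≤ k * ((M + 1) * q ^ (R - 1)) := by
      have := mul_le_mul_of_nonneg_right hkMr hqp
      nlinarith
    have h6 := le_of_mul_le_mul_left h5 (by linarith)
    nlinarith
  have h2 : ∀ s : ℝ, (2 * n * k + 1 : ℝ) ≤ q * s → (n : ℝ) ≤ (1 - 4 * q) ^ n * s / 2 := by
    intro s hs
    have hs0 : 0 < s := by
      by_contra hc
      push Not at hc
      have : q * s ≤ 0 := mul_nonpos_of_nonneg_of_nonpos hq0.le hc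
      have : (0 : ℝ) ≤ 2 * n * k := by positivity
      linarith
    have h3 : Real.exp (-(8 * q)) ≤ 1 - 4 * q := by
      have h4 : 1 + 8 * q ≤ Real.exp (8 * q) := by
        have := Real.add_one_le_exp (8 * q)
        linarith
      rw [Real.exp_neg]
      rw [inv_le_comm₀ (Real.exp_pos _) (by linarith)]
      refine le_trans ?_ h4
      rw [inv_le_iff_one_le_mul₀ (by linarith)]
      nlinarith
    have h4 : w⁻¹ ≤ (1 - 4 * q) ^ n := by
      refine le_trans (le_of_eq ?_) (pow_le_pow_left₀ (Real.exp_pos _).le h3 n)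
      rw [← Real.exp_nat_mul, ← hexp, ← Real.exp_neg]
      congr 1
      linarith
    have h5 : 16 * (n * w) ≤ s := by
      have h6 : (2 * n : ℝ) ≤ q * s := by
        have : (2 * n : ℝ) * 1 ≤ 2 * n * k := mul_le_mul_of_nonneg_left hk' (by positivity)
        linarith
      have h7 : (2 * n : ℝ) * (16 * n) ≤ L * s := by
        have := mul_le_mul_of_nonneg_right h6 (by positivity : (0 : ℝ) ≤ 16 * n)
        rw [← hqn]
        linarith
      have h8 : L * s ≤ 2 * w * s := mul_le_mul_of_nonneg_right (by linarith) hs0.le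
      have h9 : 2 * w * (16 * (n * w)) ≤ 2 * w * s := by
        have : 2 * w * (16 * (n * w)) = 2 * n * (16 * (w * w)) := by ring
        rw [this, hww]
        linarith
      exact le_of_mul_le_mul_left h9 (by positivity)
    have h10 : w⁻¹ * s ≤ (1 - 4 * q) ^ n * s := mul_le_mul_of_nonneg_right h4 hs0.le
    have h11 : w⁻¹ * (16 * (n * w)) ≤ w⁻¹ * s := mul_le_mul_of_nonneg_left h5 (by positivity)
    have h12 : w⁻¹ * (16 * (n * w)) = 16 * n := by
      field_simp
    linarith
  obtain ⟨φ, U, -, g1, g2, -, -⟩ := embed G k n R M q (by omega) hR H f hf hb hb' W hWd hWc hq0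
    (by linarith) h1 h2 hG ((univ.image f).sup id + 1)
  have hlt : ∀ i, f i < (univ.image f).sup id + 1 := by
    intro i
    have : id (f i) ≤ (univ.image f).sup id := le_sup (mem_image_of_mem f (mem_univ i))
    simp only [id] at this
    omega
  refine ⟨⟨⟨φ, fun {a b} hab => g2 a b (hlt a) (hlt b) hab⟩, fun a b hab => ?_⟩⟩
  by_contra hne
  have h3 := disjoint_left.1 (hWd a b hne) (g1 a (hlt a))
  have h4 : φ a = φ b := hab
  rw [h4] at h3
  exact h3 (g1 b (hlt b))

end Pool.Agent.TH974.DegLog
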