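import Mathlib

/-!
# Kalai's conjecture for cones over caterpillars
-/

set_option autoImplicit false

namespace Pool.Agent.TH974.Kalai

open Finset

/-- Kalai's bound, with the shadow, for the hypergraph with the edges `e i`, `i < t` -/
def Kal (r t : ℕ) (e : ℕ → Finset ℕ) : Prop :=
  ∀ (n : ℕ) (H : Finset (Finset (Fin n))), (∀ h ∈ H, h.card = r) →
    (¬ ∃ f : ℕ → Fin n, Set.InjOn f {x : ℕ | ∃ i, i < t ∧ x ∈ e i} ∧
      ∀ i, i < t → (e i).image f ∈ H) →
    (r : ℝ) * (H.card : ℝ) ≤ ((t : ℝ) - 1) * ((Finset.shadow H).card : ℝ)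

section link

variable {m : ℕ}

/-- the link of `x` -/
def lk (H : Finset (Finset (Fin (m + 1)))) (x : Fin (m + 1)) : Finset (Finset (Fin m)) :=
  univ.filter fun g => insert x (g.image x.succAbove) ∈ H

lemma hxn (x : Fin (m + 1)) (g : Finset (Fin m)) : x ∉ g.image x.succAbove := by
  intro hx
  obtain ⟨y, -, hy⟩ := mem_image.1 hx
  exact Fin.succAbove_ne x y hy

lemma hinj (x : Fin (m + 1)) : Function.Injective x.succAbove := Fin.succAbove_right_injective

lemma lk_card (H : Finset (Finset (Fin (m + 1)))) (x : Fin (m + 1)) :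
    (lk H x).card = (H.filter fun h => x ∈ h).card := by
  classical
  apply card_bij (fun g _ => insert x (g.image x.succAbove))
  · intro g hg
    exact mem_filter.2 ⟨(mem_filter.1 hg).2, mem_insert_self _ _⟩
  · intro g _ g' _ hgg
    have h2 : g.image x.succAbove = g'.image x.succAbove := by
      have := congrArg (fun s => s.erase x) hgg
      simp only [erase_insert (hxn x g), erase_insert (hxn x g')] at this
      exact this
    exact image_injective (hinj x) h2
  · intro h hh
    obtain ⟨hh1, hh2⟩ := mem_filter.1 hh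
    have h3 : insert x ((univ.filter fun y => x.succAbove y ∈ h).image x.succAbove) = h := by
      ext z
      simp only [mem_insert, mem_image, mem_filter, mem_univ, true_and]
      constructor
      · rintro (rfl | ⟨y, hy, rfl⟩)
        · exact hh2
        · exact hy
      · intro hz
        by_cases hzx : z = x
        · exact Or.inl hzx
        · obtain ⟨y, hy⟩ := Fin.exists_succAbove_eq hzx
          exact Or.inr ⟨y, by rw [hy]; exact hz, hy⟩
    exact ⟨univ.filter fun y => x.succAbove y ∈ h,
      mem_filter.2 ⟨mem_univ _, by rw [h3]; exact hh1⟩, h3⟩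

lemma lk_sum (k : ℕ) (H : Finset (Finset (Fin (m + 1)))) (hH : ∀ h ∈ H, h.card = k) :
    ∑ x : Fin (m + 1), (lk H x).card = k * H.card := by
  classical
  have h2 : ∑ x : Fin (m + 1), (lk H x).card = ∑ x : Fin (m + 1), (H.filter fun h => x ∈ h).card :=
    sum_congr rfl fun x _ => lk_card H x
  rw [h2]
  have h3 := Finset.sum_card_bipartiteAbove_eq_sum_card_bipartiteBelow
    (s := (univ : Finset (Fin (m + 1)))) (t := H) (fun x h => x ∈ h)
  have h4 : ∑ b ∈ H, (bipartiteBelow (fun (x : Fin (m + 1)) h => x ∈ h) univ b).card =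
      ∑ b ∈ H, k := by
    apply sum_congr rfl
    intro b hb
    rw [← hH b hb]
    congr 1
    ext x
    simp [bipartiteBelow]
  rw [h4, sum_const, smul_eq_mul, mul_comm] at h3
  exact h3

lemma lk_shadow (H : Finset (Finset (Fin (m + 1)))) (x : Fin (m + 1)) :
    Finset.shadow (lk H x) = lk (Finset.shadow H) x := by
  classical
  ext g
  simp only [lk, mem_filter, mem_univ, true_and, mem_shadow_iff_insert_mem]
  constructor
  · rintro ⟨y, hy, hyg⟩
    refine ⟨x.succAbove y, ?_, ?_⟩
    · rw [mem_insert, not_or]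
      refine ⟨Fin.succAbove_ne x y, ?_⟩
      rw [mem_image]
      rintro ⟨z, hz, hzy⟩
      rw [hinj x hzy] at hz
      exact hy hz
    · rw [image_insert, Finset.insert_comm] at hyg
      exact hyg
  · rintro ⟨z, hz, hzg⟩
    rw [mem_insert, not_or] at hz
    obtain ⟨y, rfl⟩ := Fin.exists_succAbove_eq hz.1
    refine ⟨y, ?_, ?_⟩
    · intro hy
      exact hz.2 (mem_image_of_mem _ hy)
    · rw [image_insert, Finset.insert_comm]
      exact hzg

end link

/-- links -/
lemma cone (r t : ℕ) (hr : 1 ≤ r) (ht : 1 ≤ t) (e : ℕ → Finset ℕ) (v : ℕ)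
    (hv : ∀ i, i < t → v ∉ e i) (h : Kal r t e) : Kal (r + 1) t (fun i => insert v (e i)) := by
  classical
  have ht' : (0 : ℝ) ≤ (t : ℝ) - 1 := by
    have : (1 : ℝ) ≤ t := by exact_mod_cast ht
    linarith
  intro n H hH hno
  rcases n with _ | m
  · have : H = ∅ := by
      rw [eq_empty_iff_forall_notMem]
      intro h hh
      have h1 := hH h hh
      have h2 : h = ∅ := by
        ext x
        exact x.elim0
      rw [h2, card_empty] at h1
      omega
    subst this
    rw [card_empty, Nat.cast_zero, mul_zero]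
    positivity
  have hLb : ∀ x, (r : ℝ) * ((lk H x).card : ℝ) ≤
      ((t : ℝ) - 1) * ((lk (Finset.shadow H) x).card : ℝ) := by
    intro x
    rw [← lk_shadow]
    apply h m (lk H x)
    · intro g hg
      have h1 := hH _ (mem_filter.1 hg).2
      rw [card_insert_of_notMem (hxn x g), card_image_of_injective _ (hinj x)] at h1
      omega
    · rintro ⟨f, hf1, hf2⟩
      apply hno
      refine ⟨fun w => if w = v then x else x.succAbove (f w), ?_, ?_⟩
      · intro w hw w' hw' hww
        obtain ⟨i, hi, hwi⟩ := hw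
        obtain ⟨j, hj, hwj⟩ := hw'
        simp only at hww
        rcases mem_insert.1 hwi with h1 | h1 <;> rcases mem_insert.1 hwj with h2 | h2
        · rw [h1, h2]
        · have hne : w' ≠ v := by
            rintro rfl
            exact hv j hj h2
          rw [if_pos h1, if_neg hne] at hww
          exact absurd hww.symm (Fin.succAbove_ne x _)
        · have hne : w ≠ v := by
            rintro rfl
            exact hv i hi h1
          rw [if_pos h2, if_neg hne] at hww
          exact absurd hww (Fin.succAbove_ne x _)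
        · have hne : w' ≠ v := by
            rintro rfl
            exact hv j hj h2
          have hne' : w ≠ v := by
            rintro rfl
            exact hv i hi h1
          rw [if_neg hne, if_neg hne'] at hww
          exact hf1 ⟨i, hi, h1⟩ ⟨j, hj, h2⟩ (hinj x hww)
      · intro i hi
        have h1 := (mem_filter.1 (hf2 i hi)).2
        have h2 : (insert v (e i)).image (fun w => if w = v then x else x.succAbove (f w)) =
            insert x (((e i).image f).image x.succAbove) := by
          rw [image_insert, if_pos rfl, image_image]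
          congr 1
          apply image_congr
          intro w hw
          have hne : w ≠ v := by
            rintro rfl
            exact hv i hi hw
          simp only [Function.comp]
          rw [if_neg hne]
        rw [h2]
        exact h1
  have hHs : ∀ h ∈ Finset.shadow H, h.card = r := by
    intro h hh
    obtain ⟨y, hy, hyh⟩ := mem_shadow_iff_insert_mem.1 hh
    have := hH _ hyh
    rw [card_insert_of_notMem hy] at this
    omega
  have hc1 : ((r : ℝ) + 1) * H.card = ∑ x : Fin (m + 1), ((lk H x).card : ℝ) := by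
    exact_mod_cast (lk_sum (r + 1) H hH).symm
  have hc2 : (r : ℝ) * ((Finset.shadow H).card : ℝ) =
      ∑ x : Fin (m + 1), ((lk (Finset.shadow H) x).card : ℝ) := by
    exact_mod_cast (lk_sum r (Finset.shadow H) hHs).symm
  have hr0 : (0 : ℝ) < r := by exact_mod_cast hr
  have h5 : (r : ℝ) * (((r : ℝ) + 1) * H.card) ≤
      r * (((t : ℝ) - 1) * ((Finset.shadow H).card : ℝ)) := by
    rw [hc1, mul_sum]
    refine le_trans (sum_le_sum fun x _ => hLb x) (le_of_eq ?_)
    rw [← mul_sum, ← hc2]
    ring
  push_cast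
  exact le_of_mul_le_mul_left h5 hr0

/-- clockwise distance from `x` to `y` -/
def dd (n x y : ℕ) : ℕ := if x ≤ y then y - x else y + n - x

/-- the conditions on the word of a caterpillar: at each step one of the two ends is replaced by a
new vertex -/
def Cat (t : ℕ) (a b : ℕ → ℕ) : Prop :=
  a 0 ≠ b 0 ∧ ∀ i, i + 1 < t →
    (a (i + 1) = a i ∧ ∀ j ≤ i, b (i + 1) ≠ a j ∧ b (i + 1) ≠ b j) ∨
    (b (i + 1) = b i ∧ ∀ j ≤ i, a (i + 1) ≠ a j ∧ a (i + 1) ≠ b j)

/-- the first `i + 1` edges embedded, the last one on `(x, y)`, inside the arc from `x` to `y` -/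
def Emb {n : ℕ} (H : Finset (Finset (Fin n))) (a b : ℕ → ℕ) (i : ℕ) (x y : Fin n) : Prop :=
  ∃ f : ℕ → Fin n, f (a i) = x ∧ f (b i) = y ∧
    Set.InjOn f {w : ℕ | ∃ j, j ≤ i ∧ (w = a j ∨ w = b j)} ∧
    (∀ j, j ≤ i → ({f (a j), f (b j)} : Finset (Fin n)) ∈ H) ∧
    ∀ j, j ≤ i → dd n x (f (a j)) ≤ dd n x y ∧ dd n x (f (b j)) ≤ dd n x y

lemma emb_b {n : ℕ} (H : Finset (Finset (Fin n))) (a b : ℕ → ℕ) (i : ℕ) (x y y' : Fin n)
    (h : Emb H a b i x y) (hyy : dd n x y < dd n x y') (hH : ({x, y'} : Finset (Fin n)) ∈ H)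
    (ha : a (i + 1) = a i) (hb : ∀ j ≤ i, b (i + 1) ≠ a j ∧ b (i + 1) ≠ b j) :
    Emb H a b (i + 1) x y' := by
  obtain ⟨f, h1, h2, h3, h4, h5⟩ := h
  have hfa : ∀ j ≤ i, Function.update f (b (i + 1)) y' (a j) = f (a j) := fun j hj =>
    Function.update_of_ne (hb j hj).1.symm _ _
  have hfb : ∀ j ≤ i, Function.update f (b (i + 1)) y' (b j) = f (b j) := fun j hj =>
    Function.update_of_ne (hb j hj).2.symm _ _
  have hnew : ∀ j ≤ i, f (a j) ≠ y' ∧ f (b j) ≠ y' := by
    intro j hj
    have := h5 j hj
    constructor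
    · rintro h6
      rw [h6] at this
      omega
    · rintro h6
      rw [h6] at this
      omega
  refine ⟨Function.update f (b (i + 1)) y', ?_, ?_, ?_, ?_, ?_⟩
  · rw [ha, hfa i le_rfl, h1]
  · rw [Function.update_self]
  · have hold : ∀ w, (∃ j, j ≤ i + 1 ∧ (w = a j ∨ w = b j)) →
        w = b (i + 1) ∨ ∃ j, j ≤ i ∧ (w = a j ∨ w = b j) := by
      rintro w ⟨j, hj, hw⟩
      rcases Nat.lt_or_ge i j with hij | hij
      · have : j = i + 1 := by omega
        subst this
        rcases hw with hw | hw
        · exact Or.inr ⟨i, le_rfl, Or.inl (by rw [hw, ha])⟩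
        · exact Or.inl hw
      · exact Or.inr ⟨j, hij, hw⟩
    have hval : ∀ w, (∃ j, j ≤ i ∧ (w = a j ∨ w = b j)) →
        Function.update f (b (i + 1)) y' w = f w ∧ f w ≠ y' := by
      rintro w ⟨j, hj, rfl | rfl⟩
      · exact ⟨hfa j hj, (hnew j hj).1⟩
      · exact ⟨hfb j hj, (hnew j hj).2⟩
    intro w hw w' hw' hww
    rcases hold w hw with h6 | h6 <;> rcases hold w' hw' with h7 | h7
    · rw [h6, h7]
    · rw [h6, Function.update_self, (hval w' h7).1] at hww
      exact absurd hww.symm (hval w' h7).2
    · rw [h7, Function.update_self, (hval w h6).1] at hww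
      exact absurd hww (hval w h6).2
    · rw [(hval w h6).1, (hval w' h7).1] at hww
      exact h3 h6 h7 hww
  · intro j hj
    rcases Nat.lt_or_ge i j with hij | hij
    · have : j = i + 1 := by omega
      subst this
      rw [ha, hfa i le_rfl, h1, Function.update_self]
      exact hH
    · rw [hfa j hij, hfb j hij]
      exact h4 j hij
  · intro j hj
    rcases Nat.lt_or_ge i j with hij | hij
    · have : j = i + 1 := by omega
      subst this
      rw [ha, hfa i le_rfl, h1, Function.update_self]
      refine ⟨?_, le_rfl⟩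
      have := (h5 i le_rfl).1
      rw [h1] at this
      omega
    · rw [hfa j hij, hfb j hij]
      have := h5 j hij
      omega

lemma emb_a {n : ℕ} (H : Finset (Finset (Fin n))) (a b : ℕ → ℕ) (i : ℕ) (x x' y : Fin n)
    (h : Emb H a b i x y) (hyy : dd n x y < dd n x' y) (hH : ({x', y} : Finset (Fin n)) ∈ H)
    (ha : b (i + 1) = b i) (hb : ∀ j ≤ i, a (i + 1) ≠ a j ∧ a (i + 1) ≠ b j) :
    Emb H a b (i + 1) x' y := by
  obtain ⟨f, h1, h2, h3, h4, h5⟩ := h
  have hfa : ∀ j ≤ i, Function.update f (a (i + 1)) x' (a j) = f (a j) := fun j hj =>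
    Function.update_of_ne (hb j hj).1.symm _ _
  have hfb : ∀ j ≤ i, Function.update f (a (i + 1)) x' (b j) = f (b j) := fun j hj =>
    Function.update_of_ne (hb j hj).2.symm _ _
  have harc : ∀ w : Fin n, dd n x w ≤ dd n x y → dd n x' w ≤ dd n x' y ∧ w ≠ x' := by
    intro w hw
    have hw1 := w.2
    have hx1 := x.2
    have hx2 := x'.2
    have hy1 := y.2
    unfold dd at *
    constructor
    · split_ifs at * <;> omega
    · rintro rfl
      split_ifs at * <;> omega
  have hnew : ∀ j ≤ i, f (a j) ≠ x' ∧ f (b j) ≠ x' := fun j hj =>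
    ⟨(harc _ (h5 j hj).1).2, (harc _ (h5 j hj).2).2⟩
  refine ⟨Function.update f (a (i + 1)) x', ?_, ?_, ?_, ?_, ?_⟩
  · rw [Function.update_self]
  · rw [ha, hfb i le_rfl, h2]
  · have hold : ∀ w, (∃ j, j ≤ i + 1 ∧ (w = a j ∨ w = b j)) →
        w = a (i + 1) ∨ ∃ j, j ≤ i ∧ (w = a j ∨ w = b j) := by
      rintro w ⟨j, hj, hw⟩
      rcases Nat.lt_or_ge i j with hij | hij
      · have : j = i + 1 := by omega
        subst this
        rcases hw with hw | hw
        · exact Or.inl hw
        · exact Or.inr ⟨i, le_rfl, Or.inr (by rw [hw, ha])⟩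
      · exact Or.inr ⟨j, hij, hw⟩
    have hval : ∀ w, (∃ j, j ≤ i ∧ (w = a j ∨ w = b j)) →
        Function.update f (a (i + 1)) x' w = f w ∧ f w ≠ x' := by
      rintro w ⟨j, hj, rfl | rfl⟩
      · exact ⟨hfa j hj, (hnew j hj).1⟩
      · exact ⟨hfb j hj, (hnew j hj).2⟩
    intro w hw w' hw' hww
    rcases hold w hw with h6 | h6 <;> rcases hold w' hw' with h7 | h7
    · rw [h6, h7]
    · rw [h6, Function.update_self, (hval w' h7).1] at hww
      exact absurd hww.symm (hval w' h7).2
    · rw [h7, Function.update_self, (hval w h6).1] at hww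
      exact absurd hww (hval w h6).2
    · rw [(hval w h6).1, (hval w' h7).1] at hww
      exact h3 h6 h7 hww
  · intro j hj
    rcases Nat.lt_or_ge i j with hij | hij
    · have : j = i + 1 := by omega
      subst this
      rw [ha, hfb i le_rfl, h2, Function.update_self]
      exact hH
    · rw [hfa j hij, hfb j hij]
      exact h4 j hij
  · intro j hj
    rcases Nat.lt_or_ge i j with hij | hij
    · have : j = i + 1 := by omega
      subst this
      rw [ha, hfb i le_rfl, h2, Function.update_self]
      refine ⟨?_, le_rfl⟩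
      have hx2 := x'.2
      unfold dd
      split_ifs <;> omega
    · rw [hfa j hij, hfb j hij]
      exact ⟨(harc _ (h5 j hij).1).1, (harc _ (h5 j hij).2).1⟩

/-- the deletion step: all elements of `A` except at most one for each first coordinate -/
lemma del {n : ℕ} (A B : Finset (Fin n × Fin n)) (key : Fin n → Fin n → ℕ)
    (h : ∀ x y y', (x, y) ∈ A → (x, y') ∈ A → key x y < key x y' → (x, y') ∈ B)
    (hk : ∀ x y y', key x y = key x y' → y = y') :
    A.card ≤ B.card + (A.image Prod.fst).card := by
  classical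
  have hA : A.card = ∑ x ∈ A.image Prod.fst, (A.filter fun p => p.1 = x).card :=
    card_eq_sum_card_fiberwise (f := Prod.fst) fun p hp => mem_image_of_mem _ hp
  have hB : ∑ x ∈ A.image Prod.fst, (B.filter fun p => p.1 = x).card ≤ B.card := by
    have h1 : B.card = ∑ x : Fin n, (B.filter fun p => p.1 = x).card :=
      card_eq_sum_card_fiberwise (f := Prod.fst) (t := univ) fun p _ => by simp
    rw [h1]
    exact sum_le_sum_of_subset (subset_univ _)
  refine le_trans ?_ (Nat.add_le_add_right hB _)
  rw [hA, card_eq_sum_ones (A.image Prod.fst), ← sum_add_distrib]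
  apply sum_le_sum
  intro x hx
  have h0 : (A.filter fun p => p.1 = x).Nonempty := by
    obtain ⟨p, hp, hpx⟩ := mem_image.1 hx
    exact ⟨p, mem_filter.2 ⟨hp, hpx⟩⟩
  obtain ⟨p, hp, hmin⟩ := exists_min_image _ (fun p : Fin n × Fin n => key x p.2) h0
  have h1 : (A.filter fun p => p.1 = x).erase p ⊆ B.filter fun p => p.1 = x := by
    rintro ⟨x1, y1⟩ hq
    obtain ⟨hq1, hq2⟩ := mem_erase.1 hq
    obtain ⟨hq3, hq4⟩ := mem_filter.1 hq2
    obtain ⟨hp3, hp4⟩ := mem_filter.1 hp
    obtain ⟨x2, y2⟩ := p
    simp only at hq4 hp4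
    subst hq4
    subst hp4
    have h2 := hmin _ hq2
    simp only at h2
    have h3 : key x2 y2 ≠ key x2 y1 := by
      intro h4
      have := hk _ _ _ h4
      subst this
      exact hq1 rfl
    exact mem_filter.2 ⟨h _ _ _ hp3 hq3 (by omega), rfl⟩
  have h2 := card_le_card h1
  rw [card_erase_of_mem hp] at h2
  omega

lemma dd_inj {n : ℕ} (x y y' : Fin n) (h : dd n x y = dd n x y') : y = y' := by
  have h1 := x.2
  have h2 := y.2
  have h3 := y'.2
  unfold dd at h
  apply Fin.ext
  split_ifs at h <;> omega

lemma dd_inj' {n : ℕ} (x x' y : Fin n) (h : dd n x y = dd n x' y) : x = x' := by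
  have h1 := x.2
  have h2 := y.2
  have h3 := x'.2
  unfold dd at h
  apply Fin.ext
  split_ifs at h <;> omega

/-- Perles' theorem: the Erdos-Sos bound for caterpillars -/
lemma base (t : ℕ) (ht : 1 ≤ t) (a b : ℕ → ℕ) (hab : Cat t a b) :
    Kal 2 t (fun i => {a i, b i}) := by
  classical
  intro n H hH hno
  set F : ℕ → Finset (Fin n × Fin n) := fun i => univ.filter fun p => Emb H a b i p.1 p.2 with hF
  have hFH : ∀ i p, p ∈ F i → ({p.1, p.2} : Finset (Fin n)) ∈ H := by
    intro i p hp
    obtain ⟨f, h1, h2, -, h4, -⟩ := (mem_filter.1 hp).2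
    have := h4 i le_rfl
    rw [h1, h2] at this
    exact this
  have h0 : 2 * H.card ≤ (F 0).card := by
    have h1 : ∑ h ∈ H, 2 ≤ ∑ h ∈ H, ((F 0).filter fun p => ({p.1, p.2} : Finset (Fin n)) = h).card := by
      apply sum_le_sum
      intro h hh
      obtain ⟨x, y, hxy, rfl⟩ := card_eq_two.1 (hH h hh)
      have hE : ∀ x y : Fin n, x ≠ y → ({x, y} : Finset (Fin n)) ∈ H → (x, y) ∈ F 0 := by
        intro x y hxy hh
        refine mem_filter.2 ⟨mem_univ _, ?_⟩
        refine ⟨fun w => if w = a 0 then x else y, by simp, by simp [hab.1.symm], ?_, ?_, ?_⟩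
        · rintro w ⟨j, hj, hw⟩ w' ⟨j', hj', hw'⟩ hww
          have e1 : j = 0 := by omega
          have e2 : j' = 0 := by omega
          subst e1
          subst e2
          rcases hw with rfl | rfl <;> rcases hw' with rfl | rfl
          · rfl
          · simp only [if_true, hab.1.symm, if_false] at hww
            exact absurd hww hxy
          · simp only [if_true, hab.1.symm, if_false] at hww
            exact absurd hww.symm hxy
          · rfl
        · intro j hj
          have e1 : j = 0 := by omega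
          subst e1
          simp only [if_true, hab.1.symm, if_false]
          exact hh
        · intro j hj
          have e1 : j = 0 := by omega
          subst e1
          simp only [if_true, hab.1.symm, if_false]
          refine ⟨?_, le_rfl⟩
          unfold dd
          simp
      have h2 : ({(x, y), (y, x)} : Finset (Fin n × Fin n)) ⊆
          (F 0).filter fun p => ({p.1, p.2} : Finset (Fin n)) = {x, y} := by
        intro p hp
        rcases mem_insert.1 hp with rfl | hp
        · exact mem_filter.2 ⟨hE x y hxy hh, rfl⟩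
        · rw [mem_singleton.1 hp]
          have e3 : ({y, x} : Finset (Fin n)) = {x, y} := pair_comm _ _
          exact mem_filter.2 ⟨hE y x hxy.symm (by rw [e3]; exact hh), e3⟩
      have h3 := card_le_card h2
      rw [card_pair] at h3
      · exact h3
      · intro h4
        exact hxy (congrArg Prod.fst h4)
    rw [sum_const, smul_eq_mul, mul_comm] at h1
    refine h1.trans (le_of_eq ?_)
    exact (card_eq_sum_card_fiberwise (f := fun p : Fin n × Fin n => ({p.1, p.2} : Finset (Fin n)))
      (s := F 0) (t := H) (fun p hp => hFH 0 p hp)).symm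
  have hsh : ∀ C : Finset (Fin n), (∀ x ∈ C, ∃ h ∈ H, x ∈ h) → C.card ≤ (Finset.shadow H).card := by
    intro C hC
    rw [← card_image_of_injective C (singleton_injective)]
    apply card_le_card
    intro g hg
    obtain ⟨x, hx, rfl⟩ := mem_image.1 hg
    obtain ⟨h, hh, hxh⟩ := hC x hx
    obtain ⟨u, v, huv, rfl⟩ := card_eq_two.1 (hH h hh)
    rw [mem_shadow_iff_insert_mem]
    rcases mem_insert.1 hxh with rfl | hx2
    · exact ⟨v, by simpa using huv.symm, by rw [pair_comm]; exact hh⟩
    · rw [mem_singleton.1 hx2]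
      exact ⟨u, by simpa using huv, hh⟩
  have hstep : ∀ i, i + 1 < t → (F i).card ≤ (F (i + 1)).card + (Finset.shadow H).card := by
    intro i hi
    rcases hab.2 i hi with ⟨ha, hb⟩ | ⟨ha, hb⟩
    · refine le_trans (del (F i) (F (i + 1)) (fun x y => dd n x y) ?_ ?_)
        (Nat.add_le_add_left (hsh _ fun x hx => ?_) _)
      · intro x y y' h1 h2 h3
        exact mem_filter.2 ⟨mem_univ _, emb_b H a b i x y y' (mem_filter.1 h1).2 h3
          (hFH i _ h2) ha hb⟩
      · exact fun x y y' h => dd_inj x y y' h
      · obtain ⟨p, hp, rfl⟩ := mem_image.1 hx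
        exact ⟨_, hFH i p hp, mem_insert_self _ _⟩
    · have hsw : ∀ C : Finset (Fin n × Fin n), (C.image Prod.swap).card = C.card := fun C =>
        card_image_of_injective _ Prod.swap_injective
      rw [← hsw (F i), ← hsw (F (i + 1))]
      refine le_trans (del _ _ (fun x y => dd n y x) ?_ ?_)
        (Nat.add_le_add_left (hsh _ fun x hx => ?_) _)
      · intro x y y' h1 h2 h3
        obtain ⟨⟨p1, p2⟩, hp, hpe⟩ := mem_image.1 h1
        obtain ⟨⟨q1, q2⟩, hq, hqe⟩ := mem_image.1 h2
        simp only [Prod.swap_prod_mk, Prod.mk.injEq] at hpe hqe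
        obtain ⟨rfl, rfl⟩ := hpe
        obtain ⟨e1, rfl⟩ := hqe
        subst e1
        refine mem_image.2 ⟨(q1, q2), mem_filter.2 ⟨mem_univ _, ?_⟩, rfl⟩
        exact emb_a H a b i p1 q1 q2 (mem_filter.1 hp).2 h3 (hFH i _ hq) ha hb
      · exact fun x y y' h => dd_inj' y y' x h
      · obtain ⟨p, hp, rfl⟩ := mem_image.1 hx
        obtain ⟨p', hp', rfl⟩ := mem_image.1 hp
        exact ⟨_, hFH i p' hp', mem_insert_of_mem (mem_singleton_self _)⟩
  have hall : ∀ i, i < t → 2 * H.card ≤ (F i).card + i * (Finset.shadow H).card := by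
    intro i
    induction i with
    | zero => intro _; simpa using h0
    | succ i ih =>
      intro hi
      have h1 := ih (by omega)
      have h2 := hstep i hi
      have h3 : (i + 1) * (Finset.shadow H).card =
        i * (Finset.shadow H).card + (Finset.shadow H).card := by ring
      omega
  have hlast := hall (t - 1) (by omega)
  have hempty : (F (t - 1)).card = 0 := by
    rw [card_eq_zero, eq_empty_iff_forall_notMem]
    intro p hp
    obtain ⟨f, -, -, h3, h4, -⟩ := (mem_filter.1 hp).2
    apply hno
    refine ⟨f, ?_, ?_⟩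
    · intro w hw w' hw' hww
      obtain ⟨i, hi, hwi⟩ := hw
      obtain ⟨j, hj, hwj⟩ := hw'
      refine h3 ⟨i, by omega, ?_⟩ ⟨j, by omega, ?_⟩ hww
      · simpa using hwi
      · simpa using hwj
    · intro i hi
      have := h4 i (by omega)
      simpa [image_insert, image_singleton] using this
  rw [hempty, zero_add] at hlast
  have h1 : (2 : ℝ) * H.card ≤ ((t - 1 : ℕ) : ℝ) * ((Finset.shadow H).card : ℝ) := by
    exact_mod_cast hlast
  rw [Nat.cast_sub ht, Nat.cast_one] at h1
  exact_mod_cast h1

/-- cones over caterpillars -/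
theorem main (t : ℕ) (ht : 1 ≤ t) (a b : ℕ → ℕ) (hab : Cat t a b) (K : Finset ℕ)
    (hK : ∀ i, i < t → a i ∉ K ∧ b i ∉ K) : Kal (K.card + 2) t (fun i => K ∪ {a i, b i}) := by
  classical
  induction K using Finset.induction_on with
  | empty => simpa using base t ht a b hab
  | insert v K hvK ih =>
    have h1 := ih fun i hi => ⟨fun h => (hK i hi).1 (mem_insert_of_mem h),
      fun h => (hK i hi).2 (mem_insert_of_mem h)⟩
    have h2 := cone (K.card + 2) t (by omega) ht _ v (fun i hi => by
      simp only [mem_union, mem_insert, mem_singleton, not_or]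
      refine ⟨hvK, ?_, ?_⟩
      · rintro rfl
        exact (hK i hi).1 (mem_insert_self _ _)
      · rintro rfl
        exact (hK i hi).2 (mem_insert_self _ _)) h1
    rw [card_insert_of_notMem hvK]
    have e1 : (fun i => insert v K ∪ {a i, b i}) = fun i => insert v (K ∪ {a i, b i}) := by
      funext i
      exact insert_union _ _ _
    rw [e1]
    exact h2

end Pool.Agent.TH974.Kalai
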