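import Mathlib

/-!
# Ramsey numbers of partial `r`-trees versus complete graphs

Counting of ordered cliques, a cleaning step and a greedy embedding.
-/

set_option autoImplicit false

namespace Pool.Agent.TH974.Tw

open Finset
open scoped Classical

section Count

variable {V : Type*} [Fintype V]

/-- sum of `degree + 1` inside `U` -/
noncomputable def eU (G : SimpleGraph V) (U : Finset V) : ℕ :=
  ∑ w ∈ U, ((U.filter fun v => G.Adj v w).card + 1)

omit [Fintype V] in
/-- Turan's theorem for independent sets -/
lemma turan (G : SimpleGraph V) : ∀ (n : ℕ) (U : Finset V),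
    (∀ S ⊆ U, (∀ x ∈ S, ∀ y ∈ S, ¬ G.Adj x y) → S.card ≤ n) → U.card ^ 2 ≤ n * eU G U := by
  intro n
  induction n with
  | zero =>
    intro U hU
    rcases U.eq_empty_or_nonempty with rfl | ⟨x, hx⟩
    · simp
    · have := hU {x} (by simpa using hx) (by simp)
      simp at this
  | succ n ih =>
    intro U hU
    rcases U.eq_empty_or_nonempty with rfl | hne
    · simp
    obtain ⟨w, hw, hmin⟩ := U.exists_min_image
      (fun w => (U.filter fun v => G.Adj v w).card) hne
    set δ := (U.filter fun v => G.Adj v w).card with hδ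
    set A := U.filter (fun v => v = w ∨ G.Adj v w) with hA
    set W := U.filter (fun v => ¬ (v = w ∨ G.Adj v w)) with hW
    have hAc : A.card = δ + 1 := by
      have : A = insert w (U.filter fun v => G.Adj v w) := by
        ext v
        simp only [hA, mem_filter, mem_insert]
        constructor
        · rintro ⟨h1, h2 | h2⟩
          · exact Or.inl h2
          · exact Or.inr ⟨h1, h2⟩
        · rintro (rfl | ⟨h1, h2⟩)
          · exact ⟨hw, Or.inl rfl⟩
          · exact ⟨h1, Or.inr h2⟩
      rw [this, card_insert_of_notMem]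
      simp
    have hUc : A.card + W.card = U.card := by
      rw [hA, hW]
      exact card_filter_add_card_filter_not _
    have hWU : W ⊆ U := filter_subset _ _
    have hWi : W.card ^ 2 ≤ n * eU G W := by
      apply ih
      intro S hS hSi
      have hwS : w ∉ S := by
        intro h
        have := hS h
        simp [hW] at this
      have h1 := hU (insert w S) (by
        intro x hx
        rcases mem_insert.1 hx with rfl | hx
        · exact hw
        · exact hWU (hS hx)) (by
        intro x hx y hy
        rcases mem_insert.1 hx with hx1 | hx1 <;> rcases mem_insert.1 hy with hy1 | hy1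
        · rw [hx1, hy1]
          exact G.loopless.irrefl _
        · have := hS hy1
          simp only [hW, mem_filter, not_or] at this
          rw [hx1]
          exact fun h => this.2.2 h.symm
        · have := hS hx1
          simp only [hW, mem_filter, not_or] at this
          rw [hy1]
          exact this.2.2
        · exact hSi x hx1 y hy1)
      rw [card_insert_of_notMem hwS] at h1
      omega
    have hsum : (δ + 1) ^ 2 + eU G W ≤ eU G U := by
      have h1 : eU G U = ∑ v ∈ A, ((U.filter fun x => G.Adj x v).card + 1) +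
          ∑ v ∈ W, ((U.filter fun x => G.Adj x v).card + 1) := by
        unfold eU
        rw [hA, hW]
        exact (sum_filter_add_sum_filter_not _ _ _).symm
      rw [h1]
      apply add_le_add
      · calc (δ + 1) ^ 2 = ∑ v ∈ A, (δ + 1) := by
              rw [sum_const, hAc, smul_eq_mul]; ring
          _ ≤ _ := sum_le_sum fun v hv => by
              have := hmin v (mem_filter.1 hv).1
              omega
      · unfold eU
        apply sum_le_sum
        intro v _
        have := card_le_card (filter_subset_filter (fun x => G.Adj x v) hWU)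
        omega
    -- arithmetic
    have hU2 : U.card = (δ + 1) + W.card := by omega
    rw [hU2]
    generalize hx : δ + 1 = x at *
    generalize hy : W.card = y at *
    generalize eU G W = E at *
    generalize eU G U = F at *
    rcases Nat.eq_zero_or_pos n with rfl | hn
    · have hy0 : y = 0 := by nlinarith
      subst hy0
      nlinarith
    · have h3 : n * (x + y) ^ 2 ≤ n * ((n + 1) * F) := by
        have h4 : n * ((n + 1) * (x ^ 2 + E)) ≤ n * ((n + 1) * F) :=
          Nat.mul_le_mul_left _ (Nat.mul_le_mul_left _ hsum)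
        have h5 : (n + 1) * y ^ 2 ≤ (n + 1) * (n * E) := Nat.mul_le_mul_left _ hWi
        have h6 : 2 * (n * x) * y ≤ (n * x) ^ 2 + y ^ 2 := two_mul_le_add_sq _ _
        nlinarith
      exact Nat.le_of_mul_le_mul_left h3 hn

/-- ordered `k`-cliques -/
noncomputable def cl (G : SimpleGraph V) (k : ℕ) : Finset (Fin k → V) :=
  univ.filter fun f => ∀ i j, i ≠ j → G.Adj (f i) (f j)

/-- vertices adjacent to all entries -/
noncomputable def ext (G : SimpleGraph V) {k : ℕ} (f : Fin k → V) : Finset V :=
  univ.filter fun v => ∀ i, G.Adj v (f i)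

lemma cons_mem {G : SimpleGraph V} {k : ℕ} {f : Fin k → V} {v : V} :
    (Fin.cons v f : Fin (k + 1) → V) ∈ cl G (k + 1) ↔ f ∈ cl G k ∧ v ∈ ext G f := by
  simp only [cl, ext, mem_filter, mem_univ, true_and]
  constructor
  · intro h
    refine ⟨fun i j hij => ?_, fun i => ?_⟩
    · have := h i.succ j.succ (by simpa using hij)
      simpa using this
    · have := h 0 i.succ (Fin.succ_ne_zero i).symm
      simpa using this
  · rintro ⟨h1, h2⟩ i j hij
    induction i using Fin.cases with
    | zero =>
      induction j using Fin.cases with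
      | zero => exact absurd rfl hij
      | succ j => simpa using h2 j
    | succ i =>
      induction j using Fin.cases with
      | zero => simpa using (h2 i).symm
      | succ j => simpa using h1 i j (by simpa using hij)

lemma sum_succ (G : SimpleGraph V) (k : ℕ) (F : (Fin (k + 1) → V) → ℕ) :
    ∑ g ∈ cl G (k + 1), F g = ∑ f ∈ cl G k, ∑ v ∈ ext G f, F (Fin.cons v f) := by
  rw [Finset.sum_sigma']
  symm
  refine Finset.sum_bij' (fun p _ => (Fin.cons p.2 p.1 : Fin (k + 1) → V))
    (fun g _ => ⟨Fin.tail g, g 0⟩) ?_ ?_ ?_ ?_ ?_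
  · rintro ⟨f, v⟩ h
    simp only [mem_sigma] at h
    exact cons_mem.2 h
  · intro g hg
    simp only [mem_sigma]
    apply cons_mem.1
    rw [Fin.cons_self_tail]
    exact hg
  · rintro ⟨f, v⟩ _
    simp
  · intro g _
    simp
  · rintro ⟨f, v⟩ _
    rfl

lemma card_succ (G : SimpleGraph V) (k : ℕ) :
    (cl G (k + 1)).card = ∑ f ∈ cl G k, (ext G f).card := by
  have := sum_succ G k (fun _ => 1)
  simpa using this

lemma ext_cons (G : SimpleGraph V) {k : ℕ} (f : Fin k → V) (w : V) :
    ext G (Fin.cons w f : Fin (k + 1) → V) = (ext G f).filter fun v => G.Adj v w := by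
  ext v
  simp only [ext, mem_filter, mem_univ, true_and]
  constructor
  · intro h
    refine ⟨fun i => ?_, ?_⟩
    · simpa using h i.succ
    · simpa using h 0
  · rintro ⟨h1, h2⟩ i
    induction i using Fin.cases with
    | zero => simpa using h2
    | succ i => simpa using h1 i

lemma card_succ2 (G : SimpleGraph V) (k : ℕ) :
    (cl G (k + 2)).card + (cl G (k + 1)).card = ∑ f ∈ cl G k, eU G (ext G f) := by
  rw [card_succ G (k + 1), sum_succ G k (fun g => (ext G g).card), card_succ G k,
    ← sum_add_distrib]
  apply sum_congr rfl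
  intro f _
  unfold eU
  rw [sum_add_distrib]
  simp [ext_cons]

lemma rec_ineq (G : SimpleGraph V) (n : ℕ)
    (hG : ∀ S : Finset V, (∀ x ∈ S, ∀ y ∈ S, ¬ G.Adj x y) → S.card ≤ n) (k : ℕ) :
    (cl G (k + 1)).card ^ 2 ≤
      (cl G k).card * (n * ((cl G (k + 2)).card + (cl G (k + 1)).card)) := by
  rw [card_succ2, card_succ G k, mul_sum]
  refine le_trans sq_sum_le_card_mul_sum_sq ?_
  apply Nat.mul_le_mul_left
  apply sum_le_sum
  intro f _
  exact turan G n _ fun S _ hS => hG S hS

lemma growth (G : SimpleGraph V) (n : ℕ) (hn : 1 ≤ n)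
    (hG : ∀ S : Finset V, (∀ x ∈ S, ∀ y ∈ S, ¬ G.Adj x y) → S.card ≤ n) (k : ℕ) :
    ((Fintype.card V : ℝ) / (n : ℝ) ^ k - k) * ((cl G k).card : ℝ) ≤ ((cl G (k + 1)).card : ℝ) := by
  have hn' : (1 : ℝ) ≤ n := by exact_mod_cast hn
  induction k with
  | zero =>
    have h0 : (cl G 0).card = 1 := by
      have : cl G 0 = univ := by
        ext f
        simp [cl]
      rw [this]
      simp
    rw [card_succ, h0]
    have h1 : ∀ f ∈ cl G 0, (ext G f).card = Fintype.card V := by
      intro f _
      have : ext G f = univ := by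
        ext v
        simp [ext]
      rw [this]
      simp
    rw [sum_congr rfl h1, sum_const, h0]
    simp
  | succ k ih =>
    have hr := rec_ineq G n hG k
    have hr' : ((cl G (k + 1)).card : ℝ) ^ 2 ≤
      (cl G k).card * (n * ((cl G (k + 2)).card + (cl G (k + 1)).card)) := by exact_mod_cast hr
    have hy0 : (0 : ℝ) ≤ ((cl G (k + 1)).card : ℝ) := Nat.cast_nonneg _
    generalize ((cl G (k + 1)).card : ℝ) = y at *
    have hx0 : (0 : ℝ) ≤ ((cl G k).card : ℝ) := Nat.cast_nonneg _
    have hz0 : (0 : ℝ) ≤ ((cl G (k + 2)).card : ℝ) := Nat.cast_nonneg _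
    generalize ((cl G k).card : ℝ) = x at *
    have hzz : ((cl G (k + 1 + 1)).card : ℝ) = ((cl G (k + 2)).card : ℝ) := rfl
    rw [hzz]
    generalize ((cl G (k + 2)).card : ℝ) = z at *
    rcases hy0.eq_or_lt with hy | hy
    · rw [← hy]
      simpa using hz0
    have hx : 0 < x := by
      rcases hx0.eq_or_lt with hx | hx
      · rw [← hx] at hr'
        nlinarith
      · exact hx
    set a : ℝ := (Fintype.card V : ℝ) / (n : ℝ) ^ k - k with ha
    have h1 : a * y ≤ n * (z + y) := by
      have h2 : x * (a * y) ≤ x * (n * (z + y)) := by nlinarith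
      exact le_of_mul_le_mul_left h2 hx
    have hn0 : (0 : ℝ) < n := by linarith
    have h3 : (Fintype.card V : ℝ) / (n : ℝ) ^ (k + 1) - ((k + 1 : ℕ) : ℝ) ≤ a / n - 1 := by
      have h4 : (Fintype.card V : ℝ) / (n : ℝ) ^ (k + 1) = (Fintype.card V : ℝ) / (n : ℝ) ^ k / n := by
        rw [pow_succ, div_div]
      have h5 : (k : ℝ) / n ≤ k := div_le_self (Nat.cast_nonneg _) hn'
      rw [ha, sub_div, h4]
      push_cast
      linarith
    have h6 : a / n * y ≤ z + y := by
      rw [div_mul_eq_mul_div, div_le_iff₀ hn0]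
      linarith
    nlinarith

/-- all deletions lie in `T` -/
noncomputable def Ex (G : SimpleGraph V) {r : ℕ} (T : Finset (Fin r → V)) :
    Finset (Fin (r + 1) → V) :=
  (cl G (r + 1)).filter fun f => ∀ i : Fin (r + 1), (fun j => f (i.succAbove j)) ∈ T

/-- every member of `T` has many extensions inside `T` -/
def Good (G : SimpleGraph V) {r : ℕ} (m : ℕ) (T : Finset (Fin r → V)) : Prop :=
  T.Nonempty ∧ ∀ s ∈ T, ∃ X : Finset V, m < X.card ∧
    ∀ v ∈ X, ∃ i : Fin (r + 1), (i.insertNth v s : Fin (r + 1) → V) ∈ Ex G T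

lemma clean (G : SimpleGraph V) (r m : ℕ)
    (h : (r + 1) * m * (cl G r).card < (cl G (r + 1)).card) :
    ∃ T : Finset (Fin r → V), Good G m T := by
  set P : Finset (Fin r → V) → Prop := fun T => (r + 1) * m * T.card < (Ex G T).card with hP
  have h0 : P (cl G r) := by
    have : Ex G (cl G r) = cl G (r + 1) := by
      unfold Ex
      apply filter_true_of_mem
      intro f hf i
      simp only [cl, mem_filter, mem_univ, true_and] at hf ⊢
      intro a b hab
      exact hf _ _ (fun h => hab (Fin.succAbove_right_injective h))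
    simp only [hP]
    rw [this]
    exact h
  -- minimal
  obtain ⟨T, hT, hmin⟩ : ∃ T, P T ∧ ∀ S, P S → T.card ≤ S.card := by
    classical
    have hex : ∃ c, ∃ T, P T ∧ T.card = c := ⟨_, _, h0, rfl⟩
    obtain ⟨T, hT, hc⟩ := Nat.find_spec hex
    exact ⟨T, hT, fun S hS => by
      rw [hc]
      exact Nat.find_min' hex ⟨S, hS, rfl⟩⟩
  refine ⟨T, ?_, ?_⟩
  · rw [nonempty_iff_ne_empty]
    rintro rfl
    simp only [hP, card_empty, mul_zero] at hT
    obtain ⟨f, hf⟩ := card_pos.1 hT
    have := (mem_filter.1 hf).2 0
    simp at this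
  · intro s hs
    refine ⟨univ.filter fun v => ∃ i : Fin (r + 1), (i.insertNth v s : Fin (r + 1) → V) ∈ Ex G T,
      ?_, fun v hv => (mem_filter.1 hv).2⟩
    set X := univ.filter fun v => ∃ i : Fin (r + 1), (i.insertNth v s : Fin (r + 1) → V) ∈ Ex G T
      with hX
    have h1 : ¬ P (T.erase s) := by
      intro h2
      have := hmin _ h2
      rw [card_erase_of_mem hs] at this
      have := card_pos.2 ⟨s, hs⟩
      omega
    simp only [hP, not_lt] at h1 hT
    rw [card_erase_of_mem hs] at h1
    have hTc := card_pos.2 ⟨s, hs⟩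
    have h2 : (Ex G T).card ≤ (Ex G (T.erase s)).card + (Ex G T \ Ex G (T.erase s)).card := by
      have := card_le_card_sdiff_add_card (s := Ex G T) (t := Ex G (T.erase s))
      omega
    have h3 : (Ex G T \ Ex G (T.erase s)).card ≤ (r + 1) * X.card := by
      have h4 : Ex G T \ Ex G (T.erase s) ⊆
          ((univ : Finset (Fin (r + 1))) ×ˢ X).image (fun p => (p.1.insertNth p.2 s : Fin (r + 1) → V)) := by
        intro f hf
        rw [mem_sdiff] at hf
        obtain ⟨hf1, hf2⟩ := hf
        have hf3 := mem_filter.1 hf1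
        have : ∃ i : Fin (r + 1), (fun j => f (i.succAbove j)) = s := by
          by_contra hcon
          push Not at hcon
          apply hf2
          refine mem_filter.2 ⟨hf3.1, fun i => mem_erase.2 ⟨hcon i, hf3.2 i⟩⟩
        obtain ⟨i, hi⟩ := this
        have hfi : (i.insertNth (f i) s : Fin (r + 1) → V) = f := by
          rw [← hi]
          exact Fin.insertNth_self_removeNth i f
        refine mem_image.2 ⟨(i, f i), ?_, hfi⟩
        simp only [mem_product, mem_univ, true_and, hX, mem_filter]
        exact ⟨i, by rw [hfi]; exact hf1⟩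
      calc _ ≤ _ := card_le_card h4
        _ ≤ _ := card_image_le
        _ = (r + 1) * X.card := by rw [card_product, card_univ, Fintype.card_fin]
    have h5 : (r + 1) * m * T.card = (r + 1) * m * (T.card - 1) + (r + 1) * m := by
      obtain ⟨c, hc⟩ : ∃ c, T.card = c + 1 := ⟨T.card - 1, by omega⟩
      rw [hc]
      simp
      ring
    have h6 : (r + 1) * m < (r + 1) * X.card := by omega
    exact Nat.lt_of_mul_lt_mul_left h6

end Count

section Embed

variable {V : Type*} [Fintype V]

/-- greedy embedding of a partial `r`-tree -/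
lemma embed (G : SimpleGraph V) {r : ℕ} {k : ℕ} (T : Finset (Fin r → V)) (hT : Good G k T)
    (H : SimpleGraph (Fin k)) (f : Fin k → ℕ) (hf : Function.Injective f)
    (hcl : ∀ v u w : Fin k, H.Adj v u → H.Adj v w → f u < f v → f w < f v → u ≠ w → H.Adj u w)
    (hdeg : ∀ v : Fin k, (univ.filter fun u => H.Adj v u ∧ f u < f v).card ≤ r) (t : ℕ) :
    ∃ φ : Fin k → V, (∀ i j, f i < t → f j < t → φ i = φ j → i = j) ∧
      (∀ i j, f i < t → f j < t → H.Adj i j → G.Adj (φ i) (φ j)) ∧
      (∀ K : Finset (Fin k), (∀ i ∈ K, f i < t) → (∀ i ∈ K, ∀ j ∈ K, i ≠ j → H.Adj i j) →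
        K.card ≤ r → ∃ s ∈ T, ∀ j ∈ K, ∃ a, s a = φ j) := by
  obtain ⟨⟨s0, hs0⟩, hT2⟩ := hT
  induction t with
  | zero =>
    obtain ⟨X, hX, -⟩ := hT2 s0 hs0
    obtain ⟨x, -⟩ := card_pos.1 (lt_of_le_of_lt (Nat.zero_le _) hX)
    refine ⟨fun _ => x, by simp, by simp, ?_⟩
    intro K hK _ _
    have : K = ∅ := by
      rw [eq_empty_iff_forall_notMem]
      intro i hi
      exact absurd (hK i hi) (Nat.not_lt_zero _)
    subst this
    exact ⟨s0, hs0, by simp⟩
  | succ t ih =>
    obtain ⟨φ, h1, h2, h3⟩ := ih
    by_cases hi : ∃ i, f i = t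
    swap
    · push Not at hi
      have hlt : ∀ i, f i < t + 1 → f i < t := fun i h => by
        have := hi i
        omega
      exact ⟨φ, fun i j a b => h1 i j (hlt i a) (hlt j b), fun i j a b => h2 i j (hlt i a) (hlt j b),
        fun K hK => h3 K fun i h => hlt i (hK i h)⟩
    obtain ⟨i, hi⟩ := hi
    set N := univ.filter (fun u => H.Adj i u ∧ f u < f i) with hN
    have hNm : ∀ u, u ∈ N ↔ H.Adj i u ∧ f u < t := by
      intro u
      simp [hN, hi]
    obtain ⟨s, hs, hsN⟩ := h3 N (fun u hu => ((hNm u).1 hu).2)
      (fun u hu w hw huw => by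
        have a1 := (hNm u).1 hu
        have a2 := (hNm w).1 hw
        exact hcl i u w a1.1 a2.1 (by omega) (by omega) huw) (hdeg i)
    obtain ⟨X, hX, hX2⟩ := hT2 s hs
    obtain ⟨v, hvX, hv⟩ : ∃ v ∈ X, v ∉ univ.image φ := by
      by_contra hcon
      push Not at hcon
      have h5 : X ⊆ univ.image φ := hcon
      have h6 := card_le_card h5
      have h7 : (univ.image φ).card ≤ k := by
        refine le_trans card_image_le ?_
        rw [card_univ, Fintype.card_fin]
      omega
    have hv' : ∀ j, φ j ≠ v := fun j hj => hv (mem_image.2 ⟨j, mem_univ _, hj⟩)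
    obtain ⟨p, hp⟩ := hX2 v hvX
    obtain ⟨hp1, hp2⟩ := mem_filter.1 hp
    simp only [cl, mem_filter, mem_univ, true_and] at hp1
    have hvs : ∀ a, G.Adj v (s a) := by
      intro a
      have := hp1 p (p.succAbove a) (Fin.succAbove_ne p a).symm
      simpa using this
    have hlt : ∀ j, f j < t + 1 → j ≠ i → f j < t := by
      intro j hj hne
      have : f j ≠ f i := fun h => hne (hf h)
      omega
    have hne : ∀ j, f j < t → j ≠ i := by
      rintro j hj rfl
      omega
    have hNadj : ∀ j, f j < t → H.Adj i j → G.Adj v (φ j) := by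
      intro j hj hij
      obtain ⟨a, ha⟩ := hsN j ((hNm j).2 ⟨hij, hj⟩)
      rw [← ha]
      exact hvs a
    refine ⟨Function.update φ i v, ?_, ?_, ?_⟩
    · intro a b ha hb hab
      by_cases hai : a = i <;> by_cases hbi : b = i
      · rw [hai, hbi]
      · rw [hai, Function.update_self, Function.update_of_ne hbi] at hab
        exact absurd hab.symm (hv' b)
      · rw [hbi, Function.update_self, Function.update_of_ne hai] at hab
        exact absurd hab (hv' a)
      · rw [Function.update_of_ne hai, Function.update_of_ne hbi] at hab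
        exact h1 a b (hlt a ha hai) (hlt b hb hbi) hab
    · intro a b ha hb hab
      by_cases hai : a = i <;> by_cases hbi : b = i
      · rw [hai, hbi] at hab
        exact absurd rfl hab.ne
      · rw [hai, Function.update_self, Function.update_of_ne hbi]
        rw [hai] at hab
        exact hNadj b (hlt b hb hbi) hab
      · rw [hbi, Function.update_self, Function.update_of_ne hai]
        rw [hbi] at hab
        exact (hNadj a (hlt a ha hai) hab.symm).symm
      · rw [Function.update_of_ne hai, Function.update_of_ne hbi]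
        exact h2 a b (hlt a ha hai) (hlt b hb hbi) hab
    · intro K hK hKc hKr
      by_cases hiK : i ∈ K
      swap
      · obtain ⟨s', hs', hs2⟩ := h3 K (fun j hj => hlt j (hK j hj) (by rintro rfl; exact hiK hj)) hKc hKr
        refine ⟨s', hs', fun j hj => ?_⟩
        have hji : j ≠ i := by
          rintro rfl
          exact hiK hj
        rw [Function.update_of_ne hji]
        exact hs2 j hj
      · have hKe : ∀ j ∈ K.erase i, ∃ a, s a = φ j := by
          intro j hj
          obtain ⟨hj1, hj2⟩ := mem_erase.1 hj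
          exact hsN j ((hNm j).2 ⟨hKc i hiK j hj2 hj1.symm, hlt j (hK j hj2) hj1⟩)
        have : Nonempty (Fin r) := ⟨⟨0, by have := card_pos.2 ⟨i, hiK⟩; omega⟩⟩
        choose! g hg using hKe
        obtain ⟨b, hb⟩ : ∃ b : Fin r, b ∉ (K.erase i).image g := by
          by_contra hcon
          push Not at hcon
          have h5 : (univ : Finset (Fin r)) ⊆ (K.erase i).image g := fun x _ => hcon x
          have h6 := card_le_card h5
          rw [card_univ, Fintype.card_fin] at h6
          have h7 : ((K.erase i).image g).card ≤ (K.erase i).card := card_image_le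
          rw [card_erase_of_mem hiK] at h7
          have h8 := card_pos.2 ⟨i, hiK⟩
          omega
        refine ⟨_, hp2 (p.succAbove b), ?_⟩
        intro j hj
        by_cases hji : j = i
        · obtain ⟨z, hz⟩ := Fin.exists_succAbove_eq (x := p) (y := p.succAbove b)
            (Fin.succAbove_ne p b).symm
          refine ⟨z, ?_⟩
          rw [hji, Function.update_self]
          show (p.insertNth v s : Fin (r + 1) → V) ((p.succAbove b).succAbove z) = v
          rw [hz]
          simp
        · have hgj : g j ≠ b := by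
            rintro rfl
            exact hb (mem_image.2 ⟨j, mem_erase.2 ⟨hji, hj⟩, rfl⟩)
          obtain ⟨z, hz⟩ := Fin.exists_succAbove_eq (x := p.succAbove (g j)) (y := p.succAbove b)
            (fun h => hgj (Fin.succAbove_right_injective h))
          refine ⟨z, ?_⟩
          rw [Function.update_of_ne hji]
          show (p.insertNth v s : Fin (r + 1) → V) ((p.succAbove b).succAbove z) = φ j
          rw [hz]
          simp only [Fin.insertNth_apply_succAbove]
          exact hg j (mem_erase.2 ⟨hji, hj⟩)

end Embed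

/-- the independent set version -/
theorem main_indep (r k : ℕ) (H : SimpleGraph (Fin k)) (f : Fin k → ℕ)
    (hf : Function.Injective f)
    (hcl : ∀ v u w : Fin k, H.Adj v u → H.Adj v w → f u < f v → f w < f v → u ≠ w → H.Adj u w)
    (hdeg : ∀ v : Fin k, Set.ncard {u : Fin k | H.Adj v u ∧ f u < f v} ≤ r)
    (n N : ℕ) (hn : 1 ≤ n) (hN : ((r + 1) * k + r + 1) * n ^ r ≤ N) (G : SimpleGraph (Fin N)) :
    H.IsContained G ∨ ∃ S : Finset (Fin N), (∀ x ∈ S, ∀ y ∈ S, ¬ G.Adj x y) ∧ n < S.card := by
  by_cases hG : ∀ S : Finset (Fin N), (∀ x ∈ S, ∀ y ∈ S, ¬ G.Adj x y) → S.card ≤ n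
  swap
  · push Not at hG
    exact Or.inr hG
  left
  have hn' : (1 : ℝ) ≤ n := by exact_mod_cast hn
  have hN' : (((r : ℝ) + 1) * k + r + 1) * (n : ℝ) ^ r ≤ N := by exact_mod_cast hN
  have hgr := growth G n hn hG
  rw [Fintype.card_fin] at hgr
  have hlow : ∀ j : ℕ, j ≤ r → ((r : ℝ) + 1) * k + 1 ≤ (N : ℝ) / (n : ℝ) ^ j - j := by
    intro j hj
    have h1 : ((r : ℝ) + 1) * k + r + 1 ≤ (N : ℝ) / (n : ℝ) ^ j := by
      rw [le_div_iff₀ (by positivity)]
      refine le_trans (mul_le_mul_of_nonneg_left (pow_le_pow_right₀ hn' hj) (by positivity)) hN'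
    have h2 : (j : ℝ) ≤ r := by exact_mod_cast hj
    linarith
  have hpos : ∀ j : ℕ, j ≤ r → 0 < (cl G j).card := by
    intro j
    induction j with
    | zero =>
      intro _
      have : cl G 0 = univ := by
        ext f
        simp [cl]
      rw [this]
      simp
    | succ j ih =>
      intro hj
      have h1 := ih (by omega)
      have h2 := hgr j
      have h3 := hlow j (by omega)
      have h4 : (0 : ℝ) < ((cl G j).card : ℝ) := by exact_mod_cast h1
      have h5 : (0 : ℝ) < ((cl G (j + 1)).card : ℝ) := by
        refine lt_of_lt_of_le (mul_pos (lt_of_lt_of_le ?_ h3) h4) h2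
        positivity
      exact_mod_cast h5
  have hkey : (r + 1) * k * (cl G r).card < (cl G (r + 1)).card := by
    have h1 := hpos r le_rfl
    have h2 := hgr r
    have h3 := hlow r le_rfl
    have h4 : (0 : ℝ) < ((cl G r).card : ℝ) := by exact_mod_cast h1
    have h5 : ((r : ℝ) + 1) * k * (cl G r).card < ((cl G (r + 1)).card : ℝ) := by
      nlinarith
    exact_mod_cast h5
  obtain ⟨T, hT⟩ := clean G r k hkey
  obtain ⟨φ, h1, h2, -⟩ := embed G T hT H f hf hcl (fun v => by
    have := hdeg v
    rw [Set.ncard_eq_toFinset_card'] at this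
    convert this using 2
    ext u
    simp) ((univ.image f).sup id + 1)
  have hlt : ∀ i, f i < (univ.image f).sup id + 1 := by
    intro i
    have : id (f i) ≤ (univ.image f).sup id := le_sup (mem_image_of_mem f (mem_univ i))
    simp only [id] at this
    omega
  exact ⟨⟨⟨φ, fun {a b} hab => h2 a b (hlt a) (hlt b) hab⟩,
    fun a b hab => h1 a b (hlt a) (hlt b) hab⟩⟩

end Pool.Agent.TH974.Tw
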